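import Pool.Agent.Run7.h766.BU.Prime
import Pool.Agent.Run7.h766.MD.Main

set_option autoImplicit false
set_option linter.unusedSectionVars false

/-!
# Quotients all of whose vertex-deleted subgraphs are prime
-/

namespace Pool.Agent.Run7.h766.BU

open Finset Classical
open Pool.Agent.H234RC (Hypo NonIso Reconstructible)
open Pool.Agent.Run7.h766.MD

variable {V K : Type} [Fintype V] [Fintype K]
variable {G H : SimpleGraph V} {c : V → K} {Q : SimpleGraph K}

theorem no_of_pr (hQ : Pr Q) (i j : K) (hij : i ≠ j) :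
    ∃ z, z ≠ i ∧ z ≠ j ∧ ¬ (Q.Adj z i ↔ Q.Adj z j) := by
  by_contra hcon
  push Not at hcon
  have hM : Md Q univ {i, j} := by
    refine ⟨subset_univ _, ?_⟩
    intro z _ hz a ha b hb
    rw [mem_insert, mem_singleton, not_or] at hz
    have h := hcon z hz.1 hz.2
    rw [mem_insert, mem_singleton] at ha hb
    rcases ha with rfl | rfl <;> rcases hb with rfl | rfl
    · exact Iff.rfl
    · exact h
    · exact h.symm
    · exact Iff.rfl
  have h3 := hQ.1
  have h2 : ({i, j} : Finset K).card = 2 := card_pair hij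
  rcases hQ.2 _ hM with h | h
  · omega
  · have := congrArg card h
    rw [card_univ] at this
    omega

theorem mod_del {v : K} (hQ1 : Pr (Q.comap (Subtype.val : {k : K // k ≠ v} → K))) (N : Finset K)
    (hv : v ∉ N) (h2 : 2 ≤ N.card)
    (hmod : ∀ z, z ≠ v → z ∉ N → ∀ a ∈ N, ∀ b ∈ N, (Q.Adj z a ↔ Q.Adj z b)) :
    N.card + 1 = Fintype.card K := by
  have hne : ∀ a ∈ N, a ≠ v := fun a ha e => hv (e ▸ ha)
  set N' : Finset {k : K // k ≠ v} := univ.filter (fun k => k.1 ∈ N) with hN'
  have hmem : ∀ k : {k : K // k ≠ v}, k ∈ N' ↔ k.1 ∈ N := fun k => by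
    rw [hN', mem_filter]
    simp
  have hcard : N'.card = N.card := by
    apply card_bij (fun k _ => k.1)
    · intro k hk
      exact (hmem k).mp hk
    · intro a _ b _ h
      exact Subtype.ext h
    · intro a ha
      exact ⟨⟨a, hne a ha⟩, (hmem _).mpr ha, rfl⟩
  have hM : Md (Q.comap (Subtype.val : {k : K // k ≠ v} → K)) univ N' := by
    refine ⟨subset_univ _, ?_⟩
    intro z _ hz a ha b hb
    exact hmod z.1 z.2 (fun h => hz ((hmem z).mpr h)) a.1 ((hmem a).mp ha) b.1 ((hmem b).mp hb)
  rcases hQ1.2 _ hM with h | h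
  · omega
  · have h5 := congrArg card h
    rw [card_univ, hcard, Fintype.card_subtype, filter_ne', card_erase_of_mem (mem_univ _),
      card_univ] at h5
    have : 0 < Fintype.card K := Fintype.card_pos_iff.mpr ⟨v⟩
    omega

theorem fin_all (h5 : 5 ≤ Fintype.card K) (hlt : Fintype.card K < Fintype.card V)
    (hS : St G univ c Q) (hQ : Pr Q)
    (hQ1 : ∀ p : K, Pr (Q.comap (Subtype.val : {k : K // k ≠ p} → K)))
    (hrig : ∀ (j : K) (Q2 : SimpleGraph K), Ag Q Q2 j →
      (∃ φ : Equiv.Perm K, ∀ i j, (Q2.Adj (φ i) (φ j) ↔ Q.Adj i j)) →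
      ∀ i, (Q2.Adj j i ↔ Q.Adj j i)) : Reconstructible G ∧ Reconstructible Gᶜ := by
  by_cases hn : Fintype.card K + 3 ≤ Fintype.card V
  · by_cases hx : ∃ x, ∀ y, c y = c x → y = x
    · obtain ⟨x, hx⟩ := hx
      refine fin_prime hn hQ hS x hx (hQ1 _) (fun Q2 hA hφ => ?_)
      have h1 := hrig (c x) Q2 hA hφ
      have h2 : ∀ i j, (Q2.Adj i j ↔ Q.Adj i j) := by
        intro i j
        by_cases hi : i = c x
        · rw [hi]
          exact h1 j
        · by_cases hj : j = c x
          · rw [hj, Q2.adj_comm, Q.adj_comm]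
            exact h1 i
          · exact hA i j hi hj
      exact ⟨Equiv.refl K, h2, fun _ => rfl⟩
    · push Not at hx
      have hbig : ∀ k, 2 ≤ (fb c k).card := by
        intro k
        obtain ⟨x, _, hxk⟩ := hS.sur k
        obtain ⟨y, hy, hyx⟩ := hx x
        exact one_lt_card.mpr ⟨x, (mem_fb _ _).mpr hxk, y, (mem_fb _ _).mpr (by rw [hy, hxk]),
          fun e => hyx e.symm⟩
      obtain ⟨k, _, hk⟩ := exists_min_image (univ : Finset K) (fun k => (fb c k).card)
        (card_pos.mp (by rw [card_univ]; omega))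
      obtain ⟨x, _, hxk⟩ := hS.sur k
      have hxf : x ∈ fb c k := (mem_fb _ _).mpr hxk
      refine Pool.Agent.TH87.RVE.rec_of G True (fun H π hH hN => ?_) trivial
      refine absurd hN (two_classes hQ hH hS hn ?_ (Or.inl ⟨x, ?_, ?_⟩))
      · have : NT c = univ := by
          ext j
          rw [mem_NT]
          simp [hbig j]
        rw [this, card_univ]
        omega
      · exact fb_sub_WW k (hbig k) hxf
      · intro j e
        have h6 := congrArg sz e
        rw [sz_ty, sz_ty, hxk, card_erase_of_mem hxf] at h6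
        have h7 := hk j (mem_univ _)
        have h8 := hbig k
        omega
  · refine fin_two' (by omega) hlt hS ?_ (no_of_pr hQ) hrig
    rintro v N hv hN hmod ⟨f, hf, hfc, _⟩
    have h1 := mod_del (hQ1 v) N hv hN hmod
    obtain ⟨a, ha⟩ := card_pos.mp (by omega : 0 < N.card)
    have h2 : N.card ≤ (fb c (c (f a))).card := by
      apply card_le_card_of_injOn f
      · intro b hb
        exact mem_coe.mpr ((mem_fb _ _).mpr (hfc b (mem_coe.mp hb) a ha))
      · intro b hb d hd h
        exact hf b (mem_coe.mp hb) d (mem_coe.mp hd) h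
    have h3 := sum_fb c
    rw [← add_sum_erase univ _ (mem_univ (c (f a)))] at h3
    have h4 : ∑ _j ∈ univ.erase (c (f a)), 1 ≤ ∑ j ∈ univ.erase (c (f a)), (fb c j).card :=
      sum_le_sum (fun j _ => fb_pos hS j)
    rw [sum_const, smul_eq_mul, card_erase_of_mem (mem_univ _), card_univ] at h4
    omega

end Pool.Agent.Run7.h766.BU
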