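import Pool.Agent.Run7.h766.BU.Core

set_option autoImplicit false
set_option linter.unusedSectionVars false

/-!
# The cases
-/

namespace Pool.Agent.Run7.h766.BU

open Finset Classical
open Pool.Agent.H234RC (Hypo NonIso Reconstructible)
open Pool.Agent.Run7.h766.MD

variable {V K : Type} [Fintype V] [Fintype K]
variable {G H : SimpleGraph V} {c : V → K} {Q : SimpleGraph K} {π : V → Equiv.Perm V}

theorem nonIso_comap (σ : Equiv.Perm V) (h : ¬ NonIso G (H.comap σ)) : ¬ NonIso G H := by
  intro hN
  apply h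
  rintro ⟨τ, hτ⟩
  exact hN ⟨τ.trans σ, fun a b => hτ a b⟩

theorem exists_sec0 (hS : St G univ c Q) (x y : V) (hy : c y ≠ c x) :
    ∃ s : K → V, (∀ k, c (s k) = k) ∧ s (c x) = x ∧ s (c y) = y := by
  have hsur : ∀ k, ∃ z, c z = k := fun k => by
    obtain ⟨z, _, hz⟩ := hS.sur k
    exact ⟨z, hz⟩
  choose s0 hs0 using hsur
  refine ⟨Function.update (Function.update s0 (c x) x) (c y) y, ?_, ?_, ?_⟩
  · intro k
    by_cases h1 : k = c y
    · rw [h1, Function.update_self]
    · rw [Function.update_of_ne h1]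
      by_cases h2 : k = c x
      · rw [h2, Function.update_self]
      · rw [Function.update_of_ne h2, hs0]
  · rw [Function.update_of_ne hy.symm, Function.update_self]
  · rw [Function.update_self]

theorem case_one (hS : St G univ c Q) (hC : CC G Q c) (h3 : 3 ≤ Fintype.card K) (x : V)
    (hA : Ag G H x)
    (hcard : ((cps Q G).filter (fun X => x ∈ X)).card = ((cps Q H).filter (fun X => x ∈ X)).card)
    (hx : ∀ y, c y = c x → y = x)
    (hU : ∀ Q2 : SimpleGraph K, Ag Q Q2 (c x) →
      (∃ φ : Equiv.Perm K, ∀ i j, (Q2.Adj (φ i) (φ j) ↔ Q.Adj i j)) →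
      ∃ ψ : Equiv.Perm K, (∀ i j, (Q2.Adj (ψ i) (ψ j) ↔ Q.Adj i j)) ∧
        ∀ k, ty (fb c k) G = ty (fb c (ψ k)) G) : ¬ NonIso G H := by
  have htr : ∀ X, Cp Q H X → x ∈ X → Tr c X := by
    intro X hX hxX
    refine ⟨?_, hX.card⟩
    intro a ha b hb hab
    by_cases hax : a = x
    · rw [hax] at hab ⊢
      exact (hx b hab.symm).symm
    · by_cases hbx : b = x
      · rw [hbx] at hab ⊢
        exact hx a hab
      · exact inj_off hS hC hA hX hxX a ha b hb hax hbx hab
  have hall := all_tr hS x hcard htr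
  obtain ⟨i0, _, hi0, _, _⟩ := exists_two h3 (c x)
  obtain ⟨y0, _, hy0⟩ := hS.sur i0
  obtain ⟨s, hs, hsx, _⟩ := exists_sec0 hS x y0 (by rw [hy0]; exact hi0)
  have hne : ∀ i, i ≠ c x → s i ≠ x := fun i hi e => hi (by rw [← hs i, e])
  have hQ2 : Ag Q (H.comap s) (c x) := by
    intro i j hi hj
    rw [SimpleGraph.comap_adj, hA _ _ (hne i hi) (hne j hj)]
    by_cases hij : i = j
    · subst hij
      exact ⟨fun h => absurd h G.irrefl, fun h => absurd h Q.irrefl⟩
    · rw [hS.adj _ (mem_univ _) _ (mem_univ _) (by rw [hs, hs]; exact hij), hs, hs]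
  have hcp := hall (univ.image s) (by rw [← hsx]; exact mem_image_of_mem _ (mem_univ _))
    (tr_sec hs)
  obtain ⟨ψ, hψ, hty⟩ := hU _ hQ2 (exists_phi hcp)
  have hst : ∀ a b, c a ≠ c b → (H.Adj a b ↔ (H.comap s).Adj (c a) (c b)) := by
    intro a b hab
    rw [SimpleGraph.comap_adj]
    by_cases hax : a = x
    · rw [hax, hsx]
      apply same hS hA hall
      · rw [hs]
      · intro e
        exact hab (by rw [hax, e])
    · by_cases hbx : b = x
      · rw [hbx, hsx, H.adj_comm, H.adj_comm (s (c a))]
        apply same hS hA hall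
        · rw [hs]
        · intro e
          exact hab (by rw [hbx, e])
      · have ha : c a ≠ c x := fun e => hax (hx a e)
        have hb : c b ≠ c x := fun e => hbx (hx b e)
        rw [hA _ _ hax hbx, hA _ _ (hne _ ha) (hne _ hb),
          hS.adj _ (mem_univ _) _ (mem_univ _) hab,
          hS.adj _ (mem_univ _) _ (mem_univ _) (by rw [hs, hs]; exact hab), hs, hs]
  have hS' : St H univ (fun v => ψ.symm (c v)) Q := by
    constructor
    · intro a _ b _ hab
      have hab' : c a ≠ c b := fun e => hab (by show ψ.symm (c a) = ψ.symm (c b); rw [e])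
      rw [hst a b hab', ← hψ, Equiv.apply_symm_apply, Equiv.apply_symm_apply]
    · intro k
      obtain ⟨z, _, hz⟩ := hS.sur (ψ k)
      exact ⟨z, mem_univ _, by rw [hz, Equiv.symm_apply_apply]⟩
  apply iso_of hS hS' (Equiv.refl K) (fun i j => Iff.rfl)
  intro k
  rw [hty k, ty_eq]
  refine ⟨Equiv.refl V, fun z => ?_, fun a ha b hb => ?_⟩
  · show z ∈ fb _ k ↔ z ∈ fb c (ψ k)
    rw [mem_fb, mem_fb]
    exact Equiv.symm_apply_eq ψ
  · show H.Adj a b ↔ G.Adj a b
    have ha' : c a = ψ k := (mem_fb _ _).mp ha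
    have hb' : c b = ψ k := (mem_fb _ _).mp hb
    by_cases hax : a = x
    · have : b = a := by
        rw [hax]
        apply hx
        rw [hb', ← ha', hax]
      rw [this]
      exact ⟨fun h => absurd h H.irrefl, fun h => absurd h G.irrefl⟩
    · by_cases hbx : b = x
      · have : a = b := by
          rw [hbx]
          apply hx
          rw [ha', ← hb', hbx]
        exact absurd (this.trans hbx) hax
      · exact hA a b hax hbx

/-- the adjacencies of `x` to a copy through `x` -/
theorem rig_sec (hS : St G univ c Q) {x : V} (hA : Ag G H x) (j : K)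
    (hrig : ∀ Q2 : SimpleGraph K, Ag Q Q2 j →
      (∃ φ : Equiv.Perm K, ∀ i j, (Q2.Adj (φ i) (φ j) ↔ Q.Adj i j)) →
      ∀ i, (Q2.Adj j i ↔ Q.Adj j i)) (s : K → V) (hs : ∀ i, i ≠ j → c (s i) = i)
    (hsx : ∀ i, i ≠ j → s i ≠ x) (hj : s j = x) (hcp : Cp Q H (univ.image s)) (i : K) :
    (H.Adj x (s i) ↔ Q.Adj j i) := by
  have hag : Ag Q (H.comap s) j := by
    intro a b ha hb
    rw [SimpleGraph.comap_adj, hA _ _ (hsx a ha) (hsx b hb)]
    by_cases hab : a = b
    · subst hab
      exact ⟨fun h => absurd h G.irrefl, fun h => absurd h Q.irrefl⟩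
    · rw [hS.adj _ (mem_univ _) _ (mem_univ _) (by rw [hs a ha, hs b hb]; exact hab), hs a ha,
        hs b hb]
  have := hrig _ hag (exists_phi hcp) i
  rw [SimpleGraph.comap_adj, hj] at this
  exact this

/-- the colour which is missed by a copy -/
theorem exists_miss (hS : St G univ c Q) (hC : CC G Q c) {x : V} (hA : Ag G H x) {X : Finset V}
    (hX : Cp Q H X) (hx : x ∈ X) : ∃ j, (X.erase x).image c = univ.erase j := by
  have h1 : ((X.erase x).image c).card + 1 = Fintype.card K := by
    rw [card_image_of_injOn (fun a ha b hb hab => inj_off hS hC hA hX hx a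
      (mem_of_mem_erase ha) b (mem_of_mem_erase hb) (ne_of_mem_erase ha) (ne_of_mem_erase hb) hab),
      card_erase_add_one hx, hX.card]
  obtain ⟨j, hj⟩ : ∃ j, j ∉ (X.erase x).image c := by
    by_contra hcon
    push Not at hcon
    have : (univ : Finset K) ⊆ (X.erase x).image c := fun j _ => hcon j
    have := card_le_card this
    rw [card_univ] at this
    omega
  refine ⟨j, eq_of_subset_of_card_le ?_ ?_⟩
  · intro k hk
    exact mem_erase.mpr ⟨fun e => hj (e ▸ hk), mem_univ _⟩
  · rw [card_erase_of_mem (mem_univ _), card_univ]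
    omega

/-- all copies through a vertex of a smallest class are transversals -/
theorem tr_two (hS : St G univ c Q) (hC : CC G Q c) {x : V} (hA : Ag G H x)
    (hcard : ((cps Q G).filter (fun X => x ∈ X)).card = ((cps Q H).filter (fun X => x ∈ X)).card)
    (hmin : ∀ j, (fb c (c x)).card ≤ (fb c j).card)
    (hno : ∀ i j, i ≠ j → ∃ z, z ≠ i ∧ z ≠ j ∧ ¬ (Q.Adj z i ↔ Q.Adj z j))
    (hrig : ∀ (j : K) (Q2 : SimpleGraph K), Ag Q Q2 j →
      (∃ φ : Equiv.Perm K, ∀ i j, (Q2.Adj (φ i) (φ j) ↔ Q.Adj i j)) →
      ∀ i, (Q2.Adj j i ↔ Q.Adj j i)) (X : Finset V) (hX : Cp Q H X) (hx : x ∈ X) : Tr c X := by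
  let A := (cps Q H).filter (fun X => x ∈ X)
  have hAm : ∀ Y, Y ∈ A ↔ Cp Q H Y ∧ x ∈ Y := fun Y => by
    show Y ∈ (cps Q H).filter (fun X => x ∈ X) ↔ _
    rw [mem_filter, mem_cps]
  have hmiss : ∀ Y : Finset V, ∃ j, Y ∈ A → (Y.erase x).image c = univ.erase j := by
    intro Y
    by_cases hY : Y ∈ A
    · obtain ⟨j, hj⟩ := exists_miss hS hC hA ((hAm Y).mp hY).1 ((hAm Y).mp hY).2
      exact ⟨j, fun _ => hj⟩
    · exact ⟨c x, fun h => absurd h hY⟩
  choose m hm using hmiss
  -- the pairs
  let P : Finset (Σ _ : Finset V, V) := A.sigma (fun Y => (fb c (m Y)).erase x)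
  let UU : Finset (Finset V) := univ.filter (fun U => x ∉ U ∧ Tr c U)
  have inj1 : ∀ Y ∈ A, ∀ a ∈ Y.erase x, ∀ b ∈ Y.erase x, c a = c b → a = b := by
    intro Y hY a ha b hb hab
    exact inj_off hS hC hA ((hAm Y).mp hY).1 ((hAm Y).mp hY).2 a (mem_of_mem_erase ha) b
      (mem_of_mem_erase hb) (ne_of_mem_erase ha) (ne_of_mem_erase hb) hab
  have hmem : ∀ Y ∈ A, ∀ u ∈ (fb c (m Y)).erase x, insert u (Y.erase x) ∈ UU ∧
      u ∉ Y.erase x := by
    intro Y hY u hu
    rw [mem_erase, mem_fb] at hu
    have hcu : ∀ a ∈ Y.erase x, c a ≠ c u := by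
      intro a ha e
      have : c a ∈ (Y.erase x).image c := mem_image_of_mem _ ha
      rw [hm Y hY, e, hu.2] at this
      exact (mem_erase.mp this).1 rfl
    have hu2 : u ∉ Y.erase x := fun h => hcu u h rfl
    refine ⟨?_, hu2⟩
    refine mem_filter.mpr ⟨mem_univ _, ?_, ?_, ?_⟩
    · rw [mem_insert]
      rintro (h | h)
      · exact hu.1 h.symm
      · exact (mem_erase.mp h).1 rfl
    · intro a ha b hb hab
      rw [mem_insert] at ha hb
      rcases ha with rfl | ha
      · rcases hb with rfl | hb
        · rfl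
        · exact absurd hab.symm (hcu b hb)
      · rcases hb with rfl | hb
        · exact absurd hab (hcu a ha)
        · exact inj1 Y hY a ha b hb hab
    · rw [card_insert_of_notMem hu2, card_erase_add_one ((hAm Y).mp hY).2,
        ((hAm Y).mp hY).1.card]
  -- adjacencies
  have hadj : ∀ Y ∈ A, ∀ u ∈ (fb c (m Y)).erase x, ∀ s : K → V, (∀ k, c (s k) = k) →
      insert u (Y.erase x) = univ.image s → ∀ i, i ≠ m Y → (H.Adj x (s i) ↔ Q.Adj (m Y) i) := by
    intro Y hY u hu s hs hU i hi
    have hu' := hu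
    rw [mem_erase, mem_fb] at hu'
    have hxs : ∀ k, s k ≠ x := by
      intro k e
      have : x ∈ insert u (Y.erase x) := by
        rw [hU, ← e]
        exact mem_image_of_mem _ (mem_univ _)
      exact (mem_filter.mp (hmem Y hY u hu).1).2.1 this
    have hsm : s (m Y) = u := by
      have h5 : u ∈ univ.image s := by
        rw [← hU]
        exact mem_insert_self _ _
      obtain ⟨k, _, hk⟩ := mem_image.mp h5
      have : k = m Y := by rw [← hs k, hk, hu'.2]
      rw [← this, hk]
    have himg : univ.image (Function.update s (m Y) x) = Y := by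
      ext a
      rw [mem_image]
      constructor
      · rintro ⟨k, _, hk⟩
        by_cases hkm : k = m Y
        · rw [hkm, Function.update_self] at hk
          rw [← hk]
          exact ((hAm Y).mp hY).2
        · rw [Function.update_of_ne hkm] at hk
          have h6 : a ∈ insert u (Y.erase x) := by
            rw [hU, ← hk]
            exact mem_image_of_mem _ (mem_univ _)
          rcases mem_insert.mp h6 with h | h
          · exfalso
            apply hkm
            rw [← hs k, hk, h, hu'.2]
          · exact mem_of_mem_erase h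
      · intro ha
        by_cases hax : a = x
        · exact ⟨m Y, mem_univ _, by rw [Function.update_self, hax]⟩
        · have h6 : a ∈ univ.image s := by
            rw [← hU]
            exact mem_insert_of_mem (mem_erase.mpr ⟨hax, ha⟩)
          obtain ⟨k, _, hk⟩ := mem_image.mp h6
          refine ⟨k, mem_univ _, ?_⟩
          rw [Function.update_of_ne, hk]
          rintro rfl
          rw [hsm] at hk
          exact (hmem Y hY u hu).2 (hk ▸ mem_erase.mpr ⟨hax, ha⟩)
    have := rig_sec hS hA (m Y) (hrig (m Y)) (Function.update s (m Y) x)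
      (fun k hk => by rw [Function.update_of_ne hk, hs])
      (fun k hk => by rw [Function.update_of_ne hk]; exact hxs k)
      (Function.update_self _ _ _) (by rw [himg]; exact ((hAm Y).mp hY).1) i
    rwa [Function.update_of_ne hi] at this
  have hP : P.card ≤ UU.card := by
    apply card_le_card_of_injOn (fun p => insert p.2 (p.1.erase x))
    · intro p hp
      have hp' := mem_sigma.mp (mem_coe.mp hp)
      exact mem_coe.mpr (hmem p.1 hp'.1 p.2 hp'.2).1
    · rintro ⟨Y, u⟩ hp ⟨Y', u'⟩ hp' he
      have hp1 := mem_sigma.mp (mem_coe.mp hp)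
      have hp2 := mem_sigma.mp (mem_coe.mp hp')
      simp only at hp1 hp2 he
      have e1 := hmem Y hp1.1 u hp1.2
      have e2 := hmem Y' hp2.1 u' hp2.2
      obtain ⟨s, hs, hsU⟩ := exists_sec (mem_filter.mp e1.1).2.2
      have h1 := hadj Y hp1.1 u hp1.2 s hs hsU
      have h2 := hadj Y' hp2.1 u' hp2.2 s hs (by rw [← he, hsU])
      have hmm : m Y = m Y' := by
        by_contra hne
        obtain ⟨z, hz1, hz2, hz3⟩ := hno _ _ hne
        apply hz3
        rw [Q.adj_comm z, Q.adj_comm z, ← h1 z hz1, ← h2 z hz2]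
      have hu1 := (mem_fb _ _).mp (mem_erase.mp hp1.2).2
      have hu2 := (mem_fb _ _).mp (mem_erase.mp hp2.2).2
      have huu : u = u' := by
        apply (mem_filter.mp e1.1).2.2.1 u (mem_insert_self _ _) u'
        · rw [he]
          exact mem_insert_self _ _
        · rw [hu1, hu2, hmm]
      have hYY : Y.erase x = Y'.erase x := by
        rw [← erase_insert e1.2, he, huu, erase_insert e2.2]
      have : Y = Y' := by
        rw [← insert_erase ((hAm Y).mp hp1.1).2, hYY, insert_erase ((hAm Y').mp hp2.1).2]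
      rw [this, huu]
  have hUle : UU.card ≤ ((cps Q G).filter (fun X => x ∈ X)).card * ((fb c (c x)).erase x).card := by
    rw [← card_product]
    have hex : ∀ U : Finset V, ∃ u, U ∈ UU → u ∈ U ∧ c u = c x := by
      intro U
      by_cases hU : U ∈ UU
      · obtain ⟨s, hs, hsU⟩ := exists_sec (mem_filter.mp hU).2.2
        exact ⟨s (c x), fun _ => ⟨by
          rw [hsU]
          exact mem_image_of_mem _ (mem_univ _), hs _⟩⟩
      · exact ⟨x, fun h => absurd h hU⟩
    choose w hw using hex
    apply card_le_card_of_injOn (fun U => (insert x (U.erase (w U)), w U))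
    · intro U hU
      have hU' := mem_coe.mp hU
      have hU2 := (mem_filter.mp hU').2
      obtain ⟨hw1, hw2⟩ := hw U hU'
      have hwx : w U ≠ x := fun e => hU2.1 (e ▸ hw1)
      have hxU : x ∉ U.erase (w U) := fun h => hU2.1 (mem_of_mem_erase h)
      rw [mem_coe, mem_product, mem_filter, mem_cps, mem_erase, mem_fb]
      refine ⟨⟨cp_of_tr hS ⟨?_, ?_⟩, mem_insert_self _ _⟩, hwx, hw2⟩
      · intro a ha b hb hab
        rw [mem_insert] at ha hb
        rcases ha with rfl | ha
        · rcases hb with rfl | hb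
          · rfl
          · exfalso
            have hb' := mem_erase.mp hb
            exact hb'.1 (hU2.2.1 b hb'.2 _ hw1 (by rw [← hab, hw2]))
        · rcases hb with rfl | hb
          · exfalso
            have ha' := mem_erase.mp ha
            exact ha'.1 (hU2.2.1 a ha'.2 _ hw1 (by rw [hab, hw2]))
          · exact hU2.2.1 a (mem_of_mem_erase ha) b (mem_of_mem_erase hb) hab
      · rw [card_insert_of_notMem hxU, card_erase_add_one hw1, hU2.2.2]
    · intro U hU U' hU' he
      have hU1 := mem_coe.mp hU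
      have hU1' := mem_coe.mp hU'
      have hU2 := (mem_filter.mp hU1).2
      have hU2' := (mem_filter.mp hU1').2
      simp only [Prod.mk.injEq] at he
      have h5 : U.erase (w U) = U'.erase (w U') := by
        have e1 : x ∉ U.erase (w U) := fun h => hU2.1 (mem_of_mem_erase h)
        have e2 : x ∉ U'.erase (w U') := fun h => hU2'.1 (mem_of_mem_erase h)
        rw [← erase_insert e1, he.1, erase_insert e2]
      rw [← insert_erase (hw U hU1).1, h5, he.2, insert_erase (hw U' hU1').1]
  -- conclusion
  have hk : x ∈ fb c (c x) := (mem_fb _ _).mpr rfl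
  have hall : ∀ Y ∈ A, m Y = c x := by
    by_contra hcon
    push Not at hcon
    obtain ⟨Y0, hY0, hne⟩ := hcon
    have h5 : ∑ _Y ∈ A, ((fb c (c x)).erase x).card < ∑ Y ∈ A, ((fb c (m Y)).erase x).card := by
      apply sum_lt_sum
      · intro Y _
        by_cases h : m Y = c x
        · rw [h]
        · have : x ∉ fb c (m Y) := fun h' => h ((mem_fb _ _).mp h').symm
          rw [erase_eq_of_notMem this, card_erase_of_mem hk]
          have := hmin (m Y)
          omega
      · refine ⟨Y0, hY0, ?_⟩
        have : x ∉ fb c (m Y0) := fun h' => hne ((mem_fb _ _).mp h').symm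
        rw [erase_eq_of_notMem this, card_erase_of_mem hk]
        have h6 := hmin (m Y0)
        have h7 : 0 < (fb c (c x)).card := card_pos.mpr ⟨x, hk⟩
        omega
    rw [sum_const, smul_eq_mul] at h5
    have h6 : P.card = ∑ Y ∈ A, ((fb c (m Y)).erase x).card := card_sigma _ _
    rw [← h6] at h5
    have h7 : A.card = ((cps Q G).filter (fun X => x ∈ X)).card := hcard.symm
    rw [h7] at h5
    omega
  refine ⟨?_, hX.card⟩
  have hXA : X ∈ A := (hAm X).mpr ⟨hX, hx⟩
  have hout : ∀ a ∈ X, a ≠ x → c a ≠ c x := by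
    intro a ha hax e
    have : c a ∈ (X.erase x).image c := mem_image_of_mem _ (mem_erase.mpr ⟨hax, ha⟩)
    rw [hm X hXA, hall X hXA, e] at this
    exact (mem_erase.mp this).1 rfl
  intro a ha b hb hab
  by_cases hax : a = x
  · by_cases hbx : b = x
    · rw [hax, hbx]
    · exact absurd (by rw [← hab, hax]) (hout b hb hbx)
  · by_cases hbx : b = x
    · exact absurd (by rw [hab, hbx]) (hout a ha hax)
    · exact inj1 X hXA a (mem_erase.mpr ⟨hax, ha⟩) b (mem_erase.mpr ⟨hbx, hb⟩) hab

end Pool.Agent.Run7.h766.BU
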