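import Pool.Agent.Run7.h766.BU.Fin

set_option autoImplicit false
set_option linter.unusedSectionVars false

/-!
# A smallest class with an arbitrary induced graph
-/

namespace Pool.Agent.Run7.h766.BU

open Finset Classical
open Pool.Agent.H234RC (Hypo NonIso Reconstructible)
open Pool.Agent.Run7.h766.MD

variable {V K L : Type} [Fintype V] [Fintype K] [Fintype L]
variable {G H : SimpleGraph V} {c : V → K} {Q : SimpleGraph K} {π : V → Equiv.Perm V}

theorem Cp_congr' {F : SimpleGraph L} (X : Finset V)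
    (h : ∀ a ∈ X, ∀ b ∈ X, (H.Adj a b ↔ G.Adj a b)) (hX : Cp F G X) : Cp F H X := by
  obtain ⟨f, hf, rfl, h2⟩ := hX
  refine ⟨f, hf, rfl, fun i j => ?_⟩
  rw [← h2 i j]
  exact h _ (mem_image_of_mem _ (mem_univ _)) _ (mem_image_of_mem _ (mem_univ _))

theorem Cp_congr {F : SimpleGraph L} (X : Finset V)
    (h : ∀ a ∈ X, ∀ b ∈ X, (H.Adj a b ↔ G.Adj a b)) : Cp F G X ↔ Cp F H X :=
  ⟨Cp_congr' X h, Cp_congr' X (fun a ha b hb => (h a ha b hb).symm)⟩

/-- an injective map of a set to itself with an adjacency property gives equality of types -/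
theorem ty_of_map (B : Finset V) (f : V → V) (hf : ∀ a ∈ B, ∀ b ∈ B, f a = f b → a = b)
    (hB : ∀ a ∈ B, f a ∈ B) (hadj : ∀ a ∈ B, ∀ b ∈ B, (H.Adj (f a) (f b) ↔ G.Adj a b)) :
    ty B G = ty B H := by
  let τ : V → V := fun v => if v ∈ B then f v else v
  have h1 : ∀ v ∈ B, τ v = f v := fun v hv => if_pos hv
  have h2 : ∀ v, v ∉ B → τ v = v := fun v hv => if_neg hv
  have hinj : Function.Injective τ := by
    intro a b hab
    by_cases ha : a ∈ B
    · by_cases hb : b ∈ B
      · rw [h1 a ha, h1 b hb] at hab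
        exact hf a ha b hb hab
      · rw [h1 a ha, h2 b hb] at hab
        exact absurd (hab ▸ hB a ha) hb
    · by_cases hb : b ∈ B
      · rw [h2 a ha, h1 b hb] at hab
        exact absurd (hab ▸ hB b hb) ha
      · rwa [h2 a ha, h2 b hb] at hab
  rw [ty_eq]
  refine ⟨Equiv.ofBijective τ (Finite.injective_iff_bijective.mp hinj), fun v => ?_,
    fun a ha b hb => ?_⟩
  · show τ v ∈ B ↔ v ∈ B
    by_cases hv : v ∈ B
    · rw [h1 v hv]
      exact ⟨fun _ => hv, fun _ => hB v hv⟩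
    · rw [h2 v hv]
  · show H.Adj (τ a) (τ b) ↔ G.Adj a b
    rw [h1 a ha, h1 b hb]
    exact hadj a ha b hb

theorem class_type (hS : St G univ c Q) (hC : CC G Q c) (h3 : 3 ≤ Fintype.card K) {x : V}
    (hA : Ag G H x) (htr : ∀ X, Cp Q H X → x ∈ X → Tr c X)
    (hout : ∀ y, c y ≠ c x → (H.Adj x y ↔ G.Adj x y))
    (hkel : ∀ (Y : Finset V) (F : SimpleGraph {v // v ∈ Y}), Y.card < Fintype.card V →
      ((cps F G).filter (fun X => x ∈ X)).card = ((cps F H).filter (fun X => x ∈ X)).card)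
    (hbig : (fb c (c x)).card + Fintype.card K ≤ Fintype.card V)
    (hB2 : 2 ≤ (fb c (c x)).card) : ty (fb c (c x)) G = ty (fb c (c x)) H := by
  set B := fb c (c x) with hBdef
  have hxB : x ∈ B := (mem_fb _ _).mpr rfl
  obtain ⟨i0, _, hi0, _, _⟩ := exists_two h3 (c x)
  obtain ⟨y0, _, hy0⟩ := hS.sur i0
  obtain ⟨s, hs, hsx, _⟩ := exists_sec0 hS x y0 (by rw [hy0]; exact hi0)
  set Y := B ∪ (univ.erase (c x)).image s with hY
  have hsY : ∀ j, j ≠ c x → s j ∈ Y := fun j hj =>
    mem_union_right _ (mem_image_of_mem _ (mem_erase.mpr ⟨hj, mem_univ _⟩))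
  have hBY : ∀ b ∈ B, b ∈ Y := fun b hb => mem_union_left _ hb
  have hYcard : Y.card < Fintype.card V := by
    have h5 := card_union_le B ((univ.erase (c x)).image s)
    have h6 : ((univ.erase (c x)).image s).card ≤ (univ.erase (c x)).card := card_image_le
    rw [card_erase_of_mem (mem_univ _), card_univ] at h6
    rw [← hY] at h5
    omega
  set F : SimpleGraph {v // v ∈ Y} := G.comap (fun v => v.1) with hF
  have hk := hkel Y F hYcard
  -- the copies which meet the class in one vertex only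
  have h1 := card_filter_add_card_filter_not (s := (cps F G).filter (fun X => x ∈ X))
    (fun X => ∃ b ∈ X, b ≠ x ∧ c b = c x)
  have h2 := card_filter_add_card_filter_not (s := (cps F H).filter (fun X => x ∈ X))
    (fun X => ∃ b ∈ X, b ≠ x ∧ c b = c x)
  have h4 : ((cps F G).filter (fun X => x ∈ X)).filter (fun X => ¬ ∃ b ∈ X, b ≠ x ∧ c b = c x) =
      ((cps F H).filter (fun X => x ∈ X)).filter (fun X => ¬ ∃ b ∈ X, b ≠ x ∧ c b = c x) := by
    ext X
    rw [mem_filter, mem_filter, mem_filter, mem_filter, mem_cps, mem_cps]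
    have key : x ∈ X → (¬ ∃ b ∈ X, b ≠ x ∧ c b = c x) → (Cp F G X ↔ Cp F H X) := by
      intro hxX hno
      push Not at hno
      apply Cp_congr
      intro a ha b hb
      by_cases hax : a = x
      · by_cases hbx : b = x
        · rw [hax, hbx]
          exact ⟨fun h => absurd h H.irrefl, fun h => absurd h G.irrefl⟩
        · rw [hax]
          exact hout b (hno b hb hbx)
      · by_cases hbx : b = x
        · rw [hbx, H.adj_comm, G.adj_comm]
          exact hout a (hno a ha hax)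
        · exact hA a b hax hbx
    constructor
    · rintro ⟨⟨h5, h6⟩, h7⟩
      exact ⟨⟨(key h6 h7).mp h5, h6⟩, h7⟩
    · rintro ⟨⟨h5, h6⟩, h7⟩
      exact ⟨⟨(key h6 h7).mpr h5, h6⟩, h7⟩
  rw [h4] at h1
  have h5 : 0 < (((cps F G).filter (fun X => x ∈ X)).filter
      (fun X => ∃ b ∈ X, b ≠ x ∧ c b = c x)).card := by
    apply card_pos.mpr
    refine ⟨Y, ?_⟩
    rw [mem_filter, mem_filter, mem_cps]
    refine ⟨⟨⟨fun v => v.1, Subtype.val_injective, ?_, fun i j => Iff.rfl⟩, hBY x hxB⟩, ?_⟩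
    · ext v
      rw [mem_image]
      constructor
      · intro hv
        exact ⟨⟨v, hv⟩, mem_univ _, rfl⟩
      · rintro ⟨w, _, rfl⟩
        exact w.2
    · obtain ⟨b, hb, hbx⟩ := exists_mem_ne (by omega : 1 < B.card) x
      exact ⟨b, hBY b hb, hbx, (mem_fb _ _).mp hb⟩
  have h6 : 0 < (((cps F H).filter (fun X => x ∈ X)).filter
      (fun X => ∃ b ∈ X, b ≠ x ∧ c b = c x)).card := by omega
  obtain ⟨X, hX⟩ := card_pos.mp h6
  rw [mem_filter, mem_filter, mem_cps] at hX
  obtain ⟨⟨hXc, hxX⟩, b, hbX, hbx, hcb⟩ := hX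
  obtain ⟨f, hf, hXf, hadj⟩ := hXc
  -- the transversals
  have htrans : ∀ m (hm : m ∈ B), ∀ i j : K, c (f (if h : i = c x then ⟨m, hBY m hm⟩ else
      ⟨s i, hsY i h⟩)) = c (f (if h : j = c x then ⟨m, hBY m hm⟩ else ⟨s j, hsY j h⟩)) →
      i = j := by
    intro m hm
    set g : K → {v // v ∈ Y} := fun i => if h : i = c x then ⟨m, hBY m hm⟩ else
      ⟨s i, hsY i h⟩ with hg
    have hg1 : g (c x) = ⟨m, hBY m hm⟩ := dif_pos rfl
    have hg2 : ∀ i (h : i ≠ c x), g i = ⟨s i, hsY i h⟩ := fun i h => dif_neg h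
    have hgc : ∀ i, c (g i).1 = i := by
      intro i
      by_cases h : i = c x
      · rw [h, hg1]
        exact (mem_fb _ _).mp hm
      · rw [hg2 i h]
        exact hs i
    have hginj : Function.Injective g := by
      intro i j hij
      rw [← hgc i, hij, hgc]
    have hcp : Cp Q H (univ.image (f ∘ g)) := by
      refine ⟨f ∘ g, hf.comp hginj, rfl, fun i j => ?_⟩
      show H.Adj (f (g i)) (f (g j)) ↔ _
      rw [hadj]
      show G.Adj (g i).1 (g j).1 ↔ _
      by_cases hij : i = j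
      · subst hij
        exact ⟨fun h => absurd h G.irrefl, fun h => absurd h Q.irrefl⟩
      · rw [hS.adj _ (mem_univ _) _ (mem_univ _) (by rw [hgc, hgc]; exact hij), hgc, hgc]
    have hT : Tr c (univ.image (f ∘ g)) := by
      by_cases hxi : x ∈ univ.image (f ∘ g)
      · exact htr _ hcp hxi
      · exact tr_of_cp hS hC h3 ((Cp_off hA _ hxi).mpr hcp)
    intro i j hij
    have := hT.1 (f (g i)) (mem_image_of_mem (f ∘ g) (mem_univ i)) (f (g j))
      (mem_image_of_mem (f ∘ g) (mem_univ j)) hij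
    exact hginj (hf this)
  -- all the vertices of the class go to one class
  have hne1 : ∀ m (hm : m ∈ B), ∀ j (hj : j ≠ c x), c (f ⟨m, hBY m hm⟩) ≠ c (f ⟨s j, hsY j hj⟩) := by
    intro m hm j hj h
    have := htrans m hm (c x) j (by rw [dif_pos rfl, dif_neg hj]; exact h)
    exact hj this.symm
  have hne2 : ∀ i (hi : i ≠ c x) j (hj : j ≠ c x), c (f ⟨s i, hsY i hi⟩) = c (f ⟨s j, hsY j hj⟩) →
      i = j := by
    intro i hi j hj h
    exact htrans x hxB i j (by rw [dif_neg hi, dif_neg hj]; exact h)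
  have hone : ∀ m (hm : m ∈ B), c (f ⟨m, hBY m hm⟩) = c (f ⟨x, hBY x hxB⟩) := by
    intro m hm
    -- the colours of the other vertices are all colours but one
    let W : Finset K := (univ.erase (c x)).attach.image
      (fun j => c (f ⟨s j.1, hsY j.1 (mem_erase.mp j.2).1⟩))
    have hW : W.card = Fintype.card K - 1 := by
      rw [card_image_of_injective, card_attach, card_erase_of_mem (mem_univ _), card_univ]
      intro i j hij
      exact Subtype.ext (hne2 i.1 (mem_erase.mp i.2).1 j.1 (mem_erase.mp j.2).1 hij)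
    have hnot : ∀ m' (hm' : m' ∈ B), c (f ⟨m', hBY m' hm'⟩) ∉ W := by
      intro m' hm' h
      obtain ⟨j, _, hj⟩ := mem_image.mp h
      exact hne1 m' hm' j.1 (mem_erase.mp j.2).1 hj.symm
    have hWc : (Wᶜ).card = 1 := by
      rw [card_compl, hW]
      omega
    obtain ⟨w, hw⟩ := card_eq_one.mp hWc
    have e1 : c (f ⟨m, hBY m hm⟩) ∈ Wᶜ := mem_compl.mpr (hnot m hm)
    have e2 : c (f ⟨x, hBY x hxB⟩) ∈ Wᶜ := mem_compl.mpr (hnot x hxB)
    rw [hw, mem_singleton] at e1 e2
    rw [e1, e2]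
  -- the class is the one of `x`
  have hYcases : ∀ v (hv : v ∈ Y), (∃ hv' : v ∈ B, True) ∨ ∃ j, ∃ _ : j ≠ c x, v = s j := by
    intro v hv
    rcases mem_union.mp hv with h | h
    · exact Or.inl ⟨h, trivial⟩
    · obtain ⟨j, hj, rfl⟩ := mem_image.mp h
      exact Or.inr ⟨j, (mem_erase.mp hj).1, rfl⟩
  have huniq : ∀ j (hj : j ≠ c x) (v : V) (hv : v ∈ Y), c (f ⟨v, hv⟩) = c (f ⟨s j, hsY j hj⟩) →
      v = s j := by
    intro j hj v hv h
    rcases hYcases v hv with ⟨hv', _⟩ | ⟨i, hi, rfl⟩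
    · exact absurd h (hne1 v hv' j hj)
    · rw [hne2 i hi j hj h]
  obtain ⟨x', _, hx'⟩ : ∃ x' ∈ univ, f x' = x := mem_image.mp (hXf ▸ hxX)
  obtain ⟨b', _, hb'⟩ : ∃ b' ∈ univ, f b' = b := mem_image.mp (hXf ▸ hbX)
  have hcc : c (f ⟨x, hBY x hxB⟩) = c x := by
    rcases hYcases x'.1 x'.2 with ⟨hv', _⟩ | ⟨i, hi, hxi⟩
    · have := hone x'.1 hv'
      rw [← this]
      show c (f x') = c x
      rw [hx']
    · exfalso
      have e1 : x' = ⟨s i, hsY i hi⟩ := Subtype.ext hxi
      have e2 := huniq i hi b'.1 b'.2 (by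
        show c (f b') = _
        rw [← e1, hb', hx', hcb])
      apply hbx
      rw [← hb', ← hx']
      congr 1
      exact Subtype.ext (e2.trans hxi.symm)
  let f2 : V → V := fun v => if h : v ∈ Y then f ⟨v, h⟩ else v
  have hf2 : ∀ v (h : v ∈ Y), f2 v = f ⟨v, h⟩ := fun v h => dif_pos h
  apply ty_of_map B f2
  · intro a ha b hb hab
    rw [hf2 a (hBY a ha), hf2 b (hBY b hb)] at hab
    exact congrArg Subtype.val (hf hab)
  · intro a ha
    rw [hf2 a (hBY a ha), mem_fb, hone a ha, hcc]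
  · intro a ha b hb
    rw [hf2 a (hBY a ha), hf2 b (hBY b hb), hadj]
    exact Iff.rfl

theorem case_two' (hS : St G univ c Q) (hC : CC G Q c) (h3 : 3 ≤ Fintype.card K) {x : V}
    (hA : Ag G H x)
    (hkel : ∀ (L : Type) (_ : Fintype L) (F : SimpleGraph L), Fintype.card L < Fintype.card V →
      ((cps F G).filter (fun X => x ∈ X)).card = ((cps F H).filter (fun X => x ∈ X)).card)
    (hlt : Fintype.card K < Fintype.card V)
    (hmin : ∀ j, (fb c (c x)).card ≤ (fb c j).card)
    (hno : ∀ i j, i ≠ j → ∃ z, z ≠ i ∧ z ≠ j ∧ ¬ (Q.Adj z i ↔ Q.Adj z j))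
    (hrig : ∀ (j : K) (Q2 : SimpleGraph K), Ag Q Q2 j →
      (∃ φ : Equiv.Perm K, ∀ i j, (Q2.Adj (φ i) (φ j) ↔ Q.Adj i j)) →
      ∀ i, (Q2.Adj j i ↔ Q.Adj j i)) :
    ¬ NonIso G H := by
  have hcard := hkel K inferInstance Q hlt
  have htr := tr_two hS hC hA hcard hmin hno hrig
  have hall := all_tr hS x hcard htr
  have hout : ∀ y, c y ≠ c x → (H.Adj x y ↔ G.Adj x y) := by
    intro y hy
    obtain ⟨s, hs, hsx, hsy⟩ := exists_sec0 hS x y hy
    have h1 := rig_sec hS hA (c x) (hrig (c x)) s (fun i _ => hs i)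
      (fun i hi e => hi (by rw [← hs i, e])) hsx
      (hall _ (by rw [← hsx]; exact mem_image_of_mem _ (mem_univ _)) (tr_sec hs)) (c y)
    rw [hsy] at h1
    rw [h1, hS.adj x (mem_univ _) y (mem_univ _) (fun e => hy e.symm)]
  have hS' : St H univ c Q := by
    refine ⟨fun a _ b _ hab => ?_, hS.sur⟩
    rw [← hS.adj a (mem_univ _) b (mem_univ _) hab]
    by_cases hax : a = x
    · rw [hax]
      exact hout b (fun e => hab (by rw [hax, e]))
    · by_cases hbx : b = x
      · rw [hbx, H.adj_comm, G.adj_comm]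
        exact hout a (fun e => hab (by rw [hbx, e]))
      · exact hA a b hax hbx
  apply iso_of hS hS' (Equiv.refl K) (fun i j => Iff.rfl)
  intro k
  show ty (fb c k) G = ty (fb c k) H
  have hpos : ∀ j, 1 ≤ (fb c j).card := fb_pos hS
  by_cases hk : k = c x
  · rw [hk]
    by_cases h1 : (fb c (c x)).card = 1
    · exact ty_single _ _ _ _ h1 h1
    · have h2 : 2 ≤ (fb c (c x)).card := by
        have := hpos (c x)
        omega
      apply class_type hS hC h3 hA htr hout (fun Y F hY => hkel _ _ F (by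
        rw [Fintype.card_coe]
        exact hY)) _ h2
      have hsum := sum_fb c
      rw [← add_sum_erase univ _ (mem_univ (c x))] at hsum
      have h5 : ∑ _j ∈ univ.erase (c x), 2 ≤ ∑ j ∈ univ.erase (c x), (fb c j).card :=
        sum_le_sum (fun j _ => h2.trans (hmin j))
      rw [sum_const, smul_eq_mul, card_erase_of_mem (mem_univ _), card_univ] at h5
      omega
  · rw [ty_eq]
    refine ⟨Equiv.refl V, fun v => Iff.rfl, fun a ha b hb => ?_⟩
    show H.Adj a b ↔ G.Adj a b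
    have ha' : c a = k := (mem_fb _ _).mp ha
    have hb' : c b = k := (mem_fb _ _).mp hb
    exact hA a b (fun e => hk (by rw [← ha', e])) (fun e => hk (by rw [← hb', e]))

theorem fin_two' (h3 : 3 ≤ Fintype.card K) (hlt : Fintype.card K < Fintype.card V)
    (hS : St G univ c Q) (hC : CC G Q c)
    (hno : ∀ i j, i ≠ j → ∃ z, z ≠ i ∧ z ≠ j ∧ ¬ (Q.Adj z i ↔ Q.Adj z j))
    (hrig : ∀ (j : K) (Q2 : SimpleGraph K), Ag Q Q2 j →
      (∃ φ : Equiv.Perm K, ∀ i j, (Q2.Adj (φ i) (φ j) ↔ Q.Adj i j)) →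
      ∀ i, (Q2.Adj j i ↔ Q.Adj j i)) : Reconstructible G ∧ Reconstructible Gᶜ := by
  obtain ⟨k, _, hk⟩ := exists_min_image (univ : Finset K) (fun k => (fb c k).card)
    (card_pos.mp (by rw [card_univ]; omega))
  obtain ⟨x, _, hx⟩ := hS.sur k
  refine Pool.Agent.TH87.RVE.rec_of G True (fun H π hH hN => ?_) trivial
  exact absurd hN (nonIso_comap (π x) (case_two' hS hC h3 (ag_comap hH x)
    (fun L _ F hL => through_eq hH hL x) hlt (by rw [hx]; exact fun j => hk j (mem_univ _))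
    hno hrig))

end Pool.Agent.Run7.h766.BU
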