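import Pool.Agent.Run7.h766.MD.Step

set_option autoImplicit false
set_option linter.unusedSectionVars false

/-!
# Copies of the quotient graph which contain a given vertex
-/

namespace Pool.Agent.Run7.h766.BU

open Finset Classical
open Pool.Agent.H234RC (Hypo NonIso Reconstructible)
open Pool.Agent.Run7.h766.MD

variable {V K : Type} [Fintype V] [Fintype K]
variable {G H : SimpleGraph V} {c : V → K} {Q : SimpleGraph K} {π : V → Equiv.Perm V}

/-- `X` induces a copy of `Q` -/
def Cp (Q : SimpleGraph K) (G : SimpleGraph V) (X : Finset V) : Prop :=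
  ∃ f : K → V, Function.Injective f ∧ X = univ.image f ∧ ∀ i j, (G.Adj (f i) (f j) ↔ Q.Adj i j)

theorem Cp.card {X : Finset V} (h : Cp Q G X) : X.card = Fintype.card K := by
  obtain ⟨f, hf, rfl, _⟩ := h
  rw [card_image_of_injective _ hf, card_univ]

/-- the copies -/
noncomputable def cps (Q : SimpleGraph K) (G : SimpleGraph V) : Finset (Finset V) :=
  univ.filter (fun X => Cp Q G X)

theorem mem_cps (X : Finset V) : X ∈ cps Q G ↔ Cp Q G X := by
  unfold cps
  simp

theorem Cp_map (σ : Equiv.Perm V) (X : Finset V) (h : Cp Q (H.comap σ) X) :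
    Cp Q H (X.map σ.toEmbedding) := by
  obtain ⟨f, hf, rfl, h⟩ := h
  refine ⟨σ ∘ f, σ.injective.comp hf, ?_, h⟩
  rw [map_eq_image, image_image]
  rfl

theorem Cp_comap (σ : Equiv.Perm V) (X : Finset V) :
    Cp Q (H.comap σ) X ↔ Cp Q H (X.map σ.toEmbedding) := by
  constructor
  · exact Cp_map σ X
  · intro h
    have e : H = (H.comap σ).comap σ.symm := by
      ext a b
      simp
    rw [e] at h
    have h2 := Cp_map σ.symm _ h
    have e2 : (X.map σ.toEmbedding).map σ.symm.toEmbedding = X := by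
      ext a
      simp
    rwa [e2] at h2

/-- two graphs with the same adjacencies of the vertices different from `v` -/
def Ag {V : Type} (G H : SimpleGraph V) (v : V) : Prop :=
  ∀ a b, a ≠ v → b ≠ v → (H.Adj a b ↔ G.Adj a b)

theorem Ag.symm' {v : V} (h : Ag G H v) : Ag H G v := fun a b ha hb => (h a b ha hb).symm

theorem ag_comap (hH : Hypo G H π) (v : V) : Ag G (H.comap (π v)) v :=
  fun a b ha hb => hH.adj v a b ha hb

theorem Cp_off' {v : V} (h : Ag G H v) (X : Finset V) (hv : v ∉ X) (hX : Cp Q G X) : Cp Q H X := by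
  obtain ⟨f, hf, rfl, h2⟩ := hX
  refine ⟨f, hf, rfl, fun i j => ?_⟩
  rw [← h2 i j]
  apply h
  · rintro rfl
    exact hv (mem_image_of_mem _ (mem_univ _))
  · rintro rfl
    exact hv (mem_image_of_mem _ (mem_univ _))

theorem Cp_off {v : V} (h : Ag G H v) (X : Finset V) (hv : v ∉ X) : Cp Q G X ↔ Cp Q H X :=
  ⟨Cp_off' h X hv, Cp_off' h.symm' X hv⟩

theorem avoid_comap (σ : Equiv.Perm V) (v : V) (hv : σ v = v) :
    ((cps Q (H.comap σ)).filter (fun X => v ∉ X)).card = ((cps Q H).filter (fun X => v ∉ X)).card := by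
  apply card_equiv (Equiv.finsetCongr σ)
  intro X
  rw [mem_filter, mem_filter, mem_cps, mem_cps, Equiv.finsetCongr_apply, Cp_comap, mem_map_equiv]
  have : σ.symm v = v := by rw [Equiv.symm_apply_eq, hv]
  rw [this]

theorem through_comap (σ : Equiv.Perm V) (v : V) (hv : σ v = v) :
    ((cps Q (H.comap σ)).filter (fun X => v ∈ X)).card = ((cps Q H).filter (fun X => v ∈ X)).card := by
  apply card_equiv (Equiv.finsetCongr σ)
  intro X
  rw [mem_filter, mem_filter, mem_cps, mem_cps, Equiv.finsetCongr_apply, Cp_comap, mem_map_equiv]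
  have : σ.symm v = v := by rw [Equiv.symm_apply_eq, hv]
  rw [this]

theorem avoid_eq (hH : Hypo G H π) (v : V) :
    ((cps Q G).filter (fun X => v ∉ X)).card = ((cps Q H).filter (fun X => v ∉ X)).card := by
  rw [← avoid_comap (H := H) (Q := Q) (π v) v (hH.fix v)]
  congr 1
  ext X
  rw [mem_filter, mem_filter, mem_cps, mem_cps]
  constructor
  · rintro ⟨h1, h2⟩
    exact ⟨(Cp_off (ag_comap hH v) X h2).mp h1, h2⟩
  · rintro ⟨h1, h2⟩
    exact ⟨(Cp_off (ag_comap hH v) X h2).mpr h1, h2⟩

theorem sum_avoid (Q : SimpleGraph K) (G : SimpleGraph V) :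
    ∑ v, ((cps Q G).filter (fun X => v ∉ X)).card =
      (cps Q G).card * (Fintype.card V - Fintype.card K) := by
  have h1 : ∀ v : V, ((cps Q G).filter (fun X => v ∉ X)).card =
      ∑ X ∈ cps Q G, if v ∉ X then 1 else 0 := fun v => card_filter _ _
  rw [sum_congr rfl (fun v _ => h1 v), sum_comm]
  rw [sum_congr rfl (fun X hX => ?_), sum_const, smul_eq_mul]
  rw [← card_filter]
  have : univ.filter (fun v => v ∉ X) = Xᶜ := by
    ext a
    simp
  rw [this, card_compl, ((mem_cps X).mp hX).card]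

theorem through_eq (hH : Hypo G H π) (hlt : Fintype.card K < Fintype.card V) (v : V) :
    ((cps Q G).filter (fun X => v ∈ X)).card =
      ((cps Q (H.comap (π v))).filter (fun X => v ∈ X)).card := by
  rw [through_comap (π v) v (hH.fix v)]
  have h1 := sum_avoid Q G
  have h2 := sum_avoid Q H
  rw [sum_congr rfl (fun v _ => avoid_eq (Q := Q) hH v), h2] at h1
  have h3 : (cps Q H).card = (cps Q G).card :=
    Nat.eq_of_mul_eq_mul_right (by omega) h1
  have h4 := card_filter_add_card_filter_not (s := cps Q G) (fun X => v ∈ X)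
  have h5 := card_filter_add_card_filter_not (s := cps Q H) (fun X => v ∈ X)
  have h6 := avoid_eq (Q := Q) hH v
  omega

/-- no graph with at least two vertices is induced both by a module of a vertex deleted subgraph
of `Q` and by vertices of a class -/
def CC (G : SimpleGraph V) (Q : SimpleGraph K) (c : V → K) : Prop :=
  ∀ (v : K) (N : Finset K), v ∉ N → 2 ≤ N.card →
    (∀ z, z ≠ v → z ∉ N → ∀ a ∈ N, ∀ b ∈ N, (Q.Adj z a ↔ Q.Adj z b)) →
    ¬ ∃ f : K → V, (∀ a ∈ N, ∀ b ∈ N, f a = f b → a = b) ∧ (∀ a ∈ N, ∀ b ∈ N, c (f a) = c (f b)) ∧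
      ∀ a ∈ N, ∀ b ∈ N, (G.Adj (f a) (f b) ↔ Q.Adj a b)

/-- copies through `x` in a graph which agrees with `G` off `x` are injective on the other
vertices -/
theorem inj_off (hS : St G univ c Q) (hC : CC G Q c) {x : V} (hA : Ag G H x) {X : Finset V}
    (hX : Cp Q H X) (hx : x ∈ X) : ∀ a ∈ X, ∀ b ∈ X, a ≠ x → b ≠ x → c a = c b → a = b := by
  obtain ⟨f, hf, rfl, h2⟩ := hX
  obtain ⟨v0, _, hv0⟩ := mem_image.mp hx
  intro a ha b hb hax hbx hab
  by_contra hne
  obtain ⟨i, _, rfl⟩ := mem_image.mp ha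
  obtain ⟨j, _, rfl⟩ := mem_image.mp hb
  have hne' : ∀ k, k ≠ v0 → f k ≠ x := fun k hk h => hk (hf (by rw [h, hv0]))
  apply hC v0 (univ.filter (fun k => k ≠ v0 ∧ c (f k) = c (f i)))
  · simp
  · apply one_lt_card.mpr
    refine ⟨i, ?_, j, ?_, fun h => hne (by rw [h])⟩
    · simp only [mem_filter, mem_univ, true_and, and_true]
      rintro rfl
      exact hax hv0
    · simp only [mem_filter, mem_univ, true_and]
      refine ⟨?_, hab.symm⟩
      rintro rfl
      exact hbx hv0
  · intro z hz hzN p hp q hq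
    simp only [mem_filter, mem_univ, true_and] at hzN hp hq
    have hz2 : c (f z) ≠ c (f i) := fun h => hzN ⟨hz, h⟩
    rw [← h2, ← h2, hA _ _ (hne' z hz) (hne' p hp.1), hA _ _ (hne' z hz) (hne' q hq.1),
      hS.adj _ (mem_univ _) _ (mem_univ _) (by rw [hp.2]; exact hz2),
      hS.adj _ (mem_univ _) _ (mem_univ _) (by rw [hq.2]; exact hz2), hp.2, hq.2]
  · refine ⟨f, fun p _ q _ h => hf h, ?_, ?_⟩
    · intro p hp q hq
      simp only [mem_filter, mem_univ, true_and] at hp hq
      rw [hp.2, hq.2]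
    · intro p hp q hq
      simp only [mem_filter, mem_univ, true_and] at hp hq
      rw [← hA _ _ (hne' p hp.1) (hne' q hq.1), h2]

/-- transversals of the classes -/
def Tr (c : V → K) (X : Finset V) : Prop :=
  (∀ a ∈ X, ∀ b ∈ X, c a = c b → a = b) ∧ X.card = Fintype.card K

theorem tr_of_cp (hS : St G univ c Q) (hC : CC G Q c) (h3 : 3 ≤ Fintype.card K) {X : Finset V}
    (hX : Cp Q G X) : Tr c X := by
  refine ⟨?_, hX.card⟩
  intro a ha b hb hab
  by_contra hne
  obtain ⟨x, hx, hxa, hxb⟩ : ∃ x ∈ X, x ≠ a ∧ x ≠ b := by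
    by_contra hcon
    push Not at hcon
    have : X ⊆ {a, b} := by
      intro x hx
      rw [mem_insert, mem_singleton]
      by_cases h : x = a
      · exact Or.inl h
      · exact Or.inr (hcon x hx h)
    have h4 := card_le_card this
    rw [hX.card] at h4
    have h5 := card_le_two (a := a) (b := b)
    omega
  exact hne (inj_off hS hC (fun _ _ _ _ => Iff.rfl) hX hx a ha b hb hxa.symm hxb.symm hab)

/-- a transversal is the image of a section -/
theorem exists_sec {X : Finset V} (hX : Tr c X) : ∃ s : K → V, (∀ k, c (s k) = k) ∧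
    X = univ.image s := by
  have h1 : X.image c = univ := by
    apply eq_univ_of_card
    rw [card_image_of_injOn (fun a ha b hb => hX.1 a ha b hb), hX.2]
  have h2 : ∀ k, ∃ y ∈ X, c y = k := fun k => mem_image.mp (h1 ▸ mem_univ k)
  choose s hs1 hs2 using h2
  refine ⟨s, hs2, ?_⟩
  ext a
  rw [mem_image]
  constructor
  · intro ha
    exact ⟨c a, mem_univ _, hX.1 _ (hs1 _) _ ha (hs2 _)⟩
  · rintro ⟨k, _, rfl⟩
    exact hs1 k

theorem sec_inj {s : K → V} (hs : ∀ k, c (s k) = k) : Function.Injective s := by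
  intro i j h
  rw [← hs i, h, hs]

theorem tr_sec {s : K → V} (hs : ∀ k, c (s k) = k) : Tr c (univ.image s) := by
  refine ⟨?_, ?_⟩
  · intro a ha b hb hab
    obtain ⟨i, _, rfl⟩ := mem_image.mp ha
    obtain ⟨j, _, rfl⟩ := mem_image.mp hb
    rw [hs, hs] at hab
    rw [hab]
  · rw [card_image_of_injective _ (sec_inj hs), card_univ]

theorem cp_of_tr (hS : St G univ c Q) {X : Finset V} (hX : Tr c X) : Cp Q G X := by
  obtain ⟨s, hs, rfl⟩ := exists_sec hX
  refine ⟨s, sec_inj hs, rfl, fun i j => ?_⟩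
  by_cases hij : i = j
  · subst hij
    exact ⟨fun h => absurd h G.irrefl, fun h => absurd h Q.irrefl⟩
  · rw [hS.adj _ (mem_univ _) _ (mem_univ _) (by rw [hs, hs]; exact hij), hs, hs]

/-- if all copies through `x` are transversals then all transversals through `x` are copies -/
theorem all_tr (hS : St G univ c Q) (x : V)
    (hcard : ((cps Q G).filter (fun X => x ∈ X)).card = ((cps Q H).filter (fun X => x ∈ X)).card)
    (htr : ∀ X, Cp Q H X → x ∈ X → Tr c X) (X : Finset V) (hx : x ∈ X) (hX : Tr c X) :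
    Cp Q H X := by
  have h1 : (cps Q H).filter (fun X => x ∈ X) ⊆ (cps Q G).filter (fun X => x ∈ X) := by
    intro Y hY
    rw [mem_filter, mem_cps] at hY ⊢
    exact ⟨cp_of_tr hS (htr Y hY.1 hY.2), hY.2⟩
  have h2 := eq_of_subset_of_card_le h1 (le_of_eq hcard)
  have h4 : X ∈ (cps Q G).filter (fun X => x ∈ X) := by
    rw [mem_filter, mem_cps]
    exact ⟨cp_of_tr hS hX, hx⟩
  rw [← h2, mem_filter, mem_cps] at h4
  exact h4.1

/-- a copy on the image of `s` -/
theorem exists_phi {s : K → V} (h : Cp Q H (univ.image s)) :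
    ∃ φ : Equiv.Perm K, ∀ i j, ((H.comap s).Adj (φ i) (φ j) ↔ Q.Adj i j) := by
  obtain ⟨f, hf, hX, h2⟩ := h
  have h3 : ∀ i, ∃ k, s k = f i := by
    intro i
    have : f i ∈ univ.image s := by
      rw [hX]
      exact mem_image_of_mem _ (mem_univ _)
    obtain ⟨k, _, hk⟩ := mem_image.mp this
    exact ⟨k, hk⟩
  choose φ hφ using h3
  have hinj : Function.Injective φ := by
    intro i j hij
    apply hf
    rw [← hφ, hij, hφ]
  refine ⟨Equiv.ofBijective φ (Finite.injective_iff_bijective.mp hinj), fun i j => ?_⟩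
  rw [Equiv.ofBijective_apply, Equiv.ofBijective_apply, SimpleGraph.comap_adj, hφ, hφ, h2]

/-- the number of the neighbours -/
noncomputable def dg (Q : SimpleGraph K) (i : K) : ℕ := (univ.filter (fun j => Q.Adj i j)).card

/-- the number of the neighbours different from `p` -/
noncomputable def dge (Q : SimpleGraph K) (p i : K) : ℕ :=
  ((univ.erase p).filter (fun j => Q.Adj i j)).card

theorem dg_split (Q : SimpleGraph K) (p i : K) :
    dg Q i = dge Q p i + if Q.Adj i p then 1 else 0 := by
  unfold dg dge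
  exact card_fe' _ p

theorem dge_congr {Q1 Q2 : SimpleGraph K} (p i : K) (h : ∀ j, j ≠ p → (Q1.Adj i j ↔ Q2.Adj i j)) :
    dge Q1 p i = dge Q2 p i := by
  unfold dge
  congr 1
  ext j
  rw [mem_filter, mem_filter]
  constructor
  · rintro ⟨h1, h2⟩
    exact ⟨h1, (h j (mem_erase.mp h1).1).mp h2⟩
  · rintro ⟨h1, h2⟩
    exact ⟨h1, (h j (mem_erase.mp h1).1).mpr h2⟩

theorem sum_dg (Q : SimpleGraph K) (p : K) : ∑ i, dg Q i = 2 * dg Q p +
    ∑ i ∈ univ.erase p, dge Q p i := by
  rw [← add_sum_erase univ _ (mem_univ p)]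
  have e1 : ∀ i ∈ univ.erase p, dg Q i = dge Q p i + if Q.Adj i p then 1 else 0 :=
    fun i _ => dg_split Q p i
  rw [sum_congr rfl e1, sum_add_distrib]
  have e2 : ∑ i ∈ univ.erase p, (if Q.Adj i p then 1 else 0) = dg Q p := by
    rw [dg_split Q p p, if_neg Q.irrefl, add_zero, dge, card_filter]
    apply sum_congr rfl
    intro i _
    simp only [Q.adj_comm i p]
  rw [e2]
  ring

theorem dg_iso {Q1 Q2 : SimpleGraph K} (φ : Equiv.Perm K)
    (h : ∀ i j, (Q2.Adj (φ i) (φ j) ↔ Q1.Adj i j)) (i : K) : dg Q2 (φ i) = dg Q1 i := by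
  unfold dg
  symm
  apply card_equiv φ
  intro j
  rw [mem_filter, mem_filter, h]
  simp

theorem dg_eq {Q1 Q2 : SimpleGraph K} (φ : Equiv.Perm K)
    (h : ∀ i j, (Q2.Adj (φ i) (φ j) ↔ Q1.Adj i j)) (p : K) (hA : Ag Q1 Q2 p) :
    dg Q2 p = dg Q1 p := by
  have h1 := sum_dg Q1 p
  have h2 := sum_dg Q2 p
  have h3 : ∑ i, dg Q2 i = ∑ i, dg Q1 i := by
    rw [← Equiv.sum_comp φ]
    exact sum_congr rfl (fun i _ => dg_iso φ h i)
  have h4 : ∑ i ∈ univ.erase p, dge Q2 p i = ∑ i ∈ univ.erase p, dge Q1 p i := by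
    apply sum_congr rfl
    intro i hi
    exact dge_congr p i (fun j hj => hA i j (mem_erase.mp hi).1 hj)
  omega

/-- the extension: `x` does not distinguish vertices of the other classes -/
theorem same (hS : St G univ c Q) {x : V} (hA : Ag G H x)
    (hall : ∀ X, x ∈ X → Tr c X → Cp Q H X) (y y' : V) (hyy : c y = c y') (hy : c y ≠ c x) :
    (H.Adj x y ↔ H.Adj x y') := by
  have hsur : ∀ k, ∃ z, c z = k := fun k => by
    obtain ⟨z, _, hz⟩ := hS.sur k
    exact ⟨z, hz⟩
  choose s0 hs0 using hsur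
  have key : ∀ w, c w = c y → dg (H.comap (Function.update (Function.update s0 (c x) x) (c y) w))
      (c x) = dg Q (c x) := by
    intro w hw
    set s := Function.update (Function.update s0 (c x) x) (c y) w with hs
    have hsec : ∀ k, c (s k) = k := by
      intro k
      rw [hs]
      by_cases h1 : k = c y
      · rw [h1, Function.update_self, hw]
      · rw [Function.update_of_ne h1]
        by_cases h2 : k = c x
        · rw [h2, Function.update_self]
        · rw [Function.update_of_ne h2, hs0]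
    have hsx : s (c x) = x := by
      rw [hs, Function.update_of_ne hy.symm, Function.update_self]
    have hcp := hall (univ.image s) (by rw [← hsx]; exact mem_image_of_mem _ (mem_univ _))
      (tr_sec hsec)
    obtain ⟨φ, hφ⟩ := exists_phi hcp
    apply dg_eq φ hφ
    intro i j hi hj
    have hi' : s i ≠ x := fun e => hi (by rw [← hsec i, e])
    have hj' : s j ≠ x := fun e => hj (by rw [← hsec j, e])
    rw [SimpleGraph.comap_adj, hA _ _ hi' hj']
    by_cases hij : i = j
    · subst hij
      exact ⟨fun h => absurd h G.irrefl, fun h => absurd h Q.irrefl⟩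
    · rw [hS.adj _ (mem_univ _) _ (mem_univ _) (by rw [hsec, hsec]; exact hij), hsec, hsec]
  have k1 := key y rfl
  have k2 := key y' hyy.symm
  rw [dg_split _ (c y)] at k1 k2
  have e : dge (H.comap (Function.update (Function.update s0 (c x) x) (c y) y)) (c y) (c x) =
      dge (H.comap (Function.update (Function.update s0 (c x) x) (c y) y')) (c y) (c x) := by
    apply dge_congr
    intro j hj
    rw [SimpleGraph.comap_adj, SimpleGraph.comap_adj, Function.update_of_ne hy.symm,
      Function.update_of_ne hj, Function.update_of_ne hy.symm, Function.update_of_ne hj]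
  rw [e] at k1
  simp only [SimpleGraph.comap_adj, Function.update_self, Function.update_of_ne hy.symm] at k1 k2
  by_cases h1 : H.Adj x y
  · by_cases h2 : H.Adj x y'
    · exact ⟨fun _ => h2, fun _ => h1⟩
    · rw [if_pos h1] at k1
      rw [if_neg h2] at k2
      omega
  · by_cases h2 : H.Adj x y'
    · rw [if_neg h1] at k1
      rw [if_pos h2] at k2
      omega
    · exact ⟨fun h => absurd h h1, fun h => absurd h h2⟩

end Pool.Agent.Run7.h766.BU
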