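import Pool.Agent.Run7.h766.BU.Cases2

set_option autoImplicit false
set_option linter.unusedSectionVars false

/-!
# Graphs without two vertices whose degrees differ by one
-/

namespace Pool.Agent.Run7.h766.BU

open Finset Classical
open Pool.Agent.H234RC (Hypo NonIso Reconstructible)
open Pool.Agent.Run7.h766.MD

variable {V K : Type} [Fintype V] [Fintype K]
variable {G H : SimpleGraph V} {c : V → K} {Q : SimpleGraph K}

theorem rig_deg (hr : ∀ i j, dg Q i ≠ dg Q j + 1) (j : K) (Q2 : SimpleGraph K) (hA : Ag Q Q2 j)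
    (hφ : ∃ φ : Equiv.Perm K, ∀ i j, (Q2.Adj (φ i) (φ j) ↔ Q.Adj i j)) (i : K) :
    (Q2.Adj j i ↔ Q.Adj j i) := by
  obtain ⟨φ, hφ⟩ := hφ
  have h2 : dg Q2 i = dg Q (φ.symm i) := by
    have := dg_iso φ hφ (φ.symm i)
    rwa [Equiv.apply_symm_apply] at this
  by_cases hij : i = j
  · rw [hij]
    exact ⟨fun h => absurd h Q2.irrefl, fun h => absurd h Q.irrefl⟩
  · have h3 := dg_split Q2 j i
    have h4 := dg_split Q j i
    have h5 : dge Q2 j i = dge Q j i := dge_congr j i (fun l hl => hA i l hij hl)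
    rw [h5, h2] at h3
    have h7 := hr (φ.symm i) i
    have h8 := hr i (φ.symm i)
    rw [Q2.adj_comm, Q.adj_comm]
    by_cases h6 : Q2.Adj i j
    · by_cases h9 : Q.Adj i j
      · exact ⟨fun _ => h9, fun _ => h6⟩
      · rw [if_pos h6] at h3
        rw [if_neg h9] at h4
        omega
    · by_cases h9 : Q.Adj i j
      · rw [if_neg h6] at h3
        rw [if_pos h9] at h4
        omega
      · exact ⟨fun h => absurd h h6, fun h => absurd h h9⟩

theorem cc_deg (hr : ∀ i j, dg Q i ≠ dg Q j + 1)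
    (hno : ∀ i j, i ≠ j → ∃ z, z ≠ i ∧ z ≠ j ∧ ¬ (Q.Adj z i ↔ Q.Adj z j))
    (htype : ∀ k, (∀ x y, c x = k → c y = k → x ≠ y → G.Adj x y) ∨
      (∀ x y, c x = k → c y = k → ¬ G.Adj x y)) : CC G Q c := by
  rintro v N hv hN hmod ⟨f, hf, hfc, hfa⟩
  obtain ⟨a, ha, b, hb, hab⟩ := one_lt_card.mp (by omega : 1 < N.card)
  have hav : a ≠ v := fun e => hv (e ▸ ha)
  have hbv : b ≠ v := fun e => hv (e ▸ hb)
  have hz : ∀ z, z ≠ v → z ≠ a → z ≠ b → (Q.Adj z a ↔ Q.Adj z b) := by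
    intro z hzv hza hzb
    by_cases hzN : z ∈ N
    · rcases htype (c (f a)) with ht | ht
      · have h1 := ht (f z) (f a) (hfc z hzN a ha) rfl (fun e => hza (hf z hzN a ha e))
        have h2 := ht (f z) (f b) (hfc z hzN a ha) (hfc b hb a ha)
          (fun e => hzb (hf z hzN b hb e))
        rw [hfa z hzN a ha] at h1
        rw [hfa z hzN b hb] at h2
        exact ⟨fun _ => h2, fun _ => h1⟩
      · have h1 := ht (f z) (f a) (hfc z hzN a ha) rfl
        have h2 := ht (f z) (f b) (hfc z hzN a ha) (hfc b hb a ha)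
        rw [hfa z hzN a ha] at h1
        rw [hfa z hzN b hb] at h2
        exact ⟨fun h => absurd h h1, fun h => absurd h h2⟩
    · exact hmod z hzv hzN a ha b hb
  have h1 := dg_split Q v a
  have h2 := dg_split Q v b
  have h3 : dge Q v a = dge Q v b := by
    unfold dge
    apply card_equiv (Equiv.swap a b)
    intro z
    rw [mem_filter, mem_filter, mem_erase, mem_erase]
    by_cases hza : z = a
    · rw [hza, Equiv.swap_apply_left]
      exact ⟨fun h => absurd h.2 Q.irrefl, fun h => absurd h.2 Q.irrefl⟩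
    · by_cases hzb : z = b
      · rw [hzb, Equiv.swap_apply_right, Q.adj_comm a b]
        exact ⟨fun h => ⟨⟨hav, mem_univ _⟩, h.2⟩, fun h => ⟨⟨hbv, mem_univ _⟩, h.2⟩⟩
      · rw [Equiv.swap_apply_of_ne_of_ne hza hzb, Q.adj_comm a z, Q.adj_comm b z]
        constructor
        · rintro ⟨⟨h4, h5⟩, h6⟩
          exact ⟨⟨h4, h5⟩, (hz z h4 hza hzb).mp h6⟩
        · rintro ⟨⟨h4, h5⟩, h6⟩
          exact ⟨⟨h4, h5⟩, (hz z h4 hza hzb).mpr h6⟩
  have h7 := hr a b
  have h8 := hr b a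
  obtain ⟨z, hz1, hz2, hz3⟩ := hno a b hab
  by_cases hzv : z = v
  · rw [hzv, Q.adj_comm v a, Q.adj_comm v b] at hz3
    apply hz3
    by_cases h4 : Q.Adj a v
    · by_cases h5 : Q.Adj b v
      · exact ⟨fun _ => h5, fun _ => h4⟩
      · rw [if_pos h4] at h1
        rw [if_neg h5] at h2
        omega
    · by_cases h5 : Q.Adj b v
      · rw [if_neg h4] at h1
        rw [if_pos h5] at h2
        omega
      · exact ⟨fun h => absurd h h4, fun h => absurd h h5⟩
  · exact hz3 (hz z hzv hz1 hz2)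

theorem fin_three' (h3 : 3 ≤ Fintype.card K) (hlt : Fintype.card K < Fintype.card V)
    (hS : St G univ c Q) (hr : ∀ i j, dg Q i ≠ dg Q j + 1)
    (hno : ∀ i j, i ≠ j → ∃ z, z ≠ i ∧ z ≠ j ∧ ¬ (Q.Adj z i ↔ Q.Adj z j))
    (htype : ∀ k, (∀ x y, c x = k → c y = k → x ≠ y → G.Adj x y) ∨
      (∀ x y, c x = k → c y = k → ¬ G.Adj x y)) : Reconstructible G ∧ Reconstructible Gᶜ :=
  fin_two' h3 hlt hS (cc_deg hr hno htype) hno (fun j Q2 hA hφ => rig_deg hr j Q2 hA hφ)

end Pool.Agent.Run7.h766.BU
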