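import Pool.Agent.Run7.h766.BU.Cases

set_option autoImplicit false
set_option linter.unusedSectionVars false

/-!
# The final forms
-/

namespace Pool.Agent.Run7.h766.BU

open Finset Classical
open Pool.Agent.H234RC (Hypo NonIso Reconstructible)
open Pool.Agent.R694.RC (k2)
open Pool.Agent.Run7.h766.MD

variable {V K : Type} [Fintype V] [Fintype K]
variable {G H : SimpleGraph V} {c : V → K} {Q : SimpleGraph K} {π : V → Equiv.Perm V}

theorem deg_eq (hH : Hypo G H π) (hV : 3 ≤ Fintype.card V) (x : V) :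
    (univ.filter (fun y => (H.comap (π x)).Adj x y)).card = (univ.filter (fun y => G.Adj x y)).card := by
  have h1 := k2 univ (by rw [card_univ]; exact hV) π hH.fix (fun _ _ _ _ => mem_univ _) G.Adj H.Adj
    (fun _ _ h => h.symm) (fun _ _ h => h.symm) (fun _ h => G.irrefl h) (fun _ h => H.irrefl h)
    (fun v _ a _ b _ ha hb => hH.adj v a b ha hb) x (mem_univ _)
  have h2 : (univ.filter (fun y => (H.comap (π x)).Adj x y)).card =
      (univ.filter (fun y => H.Adj x y)).card := by
    apply card_equiv (π x)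
    intro y
    rw [mem_filter, mem_filter, SimpleGraph.comap_adj, hH.fix]
    simp
  rw [h2]
  exact h1

theorem case_two (hS : St G univ c Q) (hC : CC G Q c) {x : V} (hA : Ag G H x)
    (hcard : ((cps Q G).filter (fun X => x ∈ X)).card = ((cps Q H).filter (fun X => x ∈ X)).card)
    (hmin : ∀ j, (fb c (c x)).card ≤ (fb c j).card)
    (hno : ∀ i j, i ≠ j → ∃ z, z ≠ i ∧ z ≠ j ∧ ¬ (Q.Adj z i ↔ Q.Adj z j))
    (hrig : ∀ (j : K) (Q2 : SimpleGraph K), Ag Q Q2 j →
      (∃ φ : Equiv.Perm K, ∀ i j, (Q2.Adj (φ i) (φ j) ↔ Q.Adj i j)) →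
      ∀ i, (Q2.Adj j i ↔ Q.Adj j i))
    (hdeg : (univ.filter (fun y => H.Adj x y)).card = (univ.filter (fun y => G.Adj x y)).card)
    (htype : (∀ y, c y = c x → y ≠ x → G.Adj x y) ∨ (∀ y, c y = c x → ¬ G.Adj x y)) :
    ¬ NonIso G H := by
  have hall := all_tr hS x hcard (tr_two hS hC hA hcard hmin hno hrig)
  have hout : ∀ y, c y ≠ c x → (H.Adj x y ↔ G.Adj x y) := by
    intro y hy
    obtain ⟨s, hs, hsx, hsy⟩ := exists_sec0 hS x y hy
    have h1 := rig_sec hS hA (c x) (hrig (c x)) s (fun i _ => hs i)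
      (fun i hi e => hi (by rw [← hs i, e])) hsx
      (hall _ (by rw [← hsx]; exact mem_image_of_mem _ (mem_univ _)) (tr_sec hs)) (c y)
    rw [hsy] at h1
    rw [h1, hS.adj x (mem_univ _) y (mem_univ _) (fun e => hy e.symm)]
  have hin : ((univ.filter (fun y => H.Adj x y)).filter (fun y => c y = c x)).card =
      ((univ.filter (fun y => G.Adj x y)).filter (fun y => c y = c x)).card := by
    have h1 := card_filter_add_card_filter_not (s := univ.filter (fun y => H.Adj x y))
      (fun y => c y = c x)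
    have h2 := card_filter_add_card_filter_not (s := univ.filter (fun y => G.Adj x y))
      (fun y => c y = c x)
    have h3 : (univ.filter (fun y => H.Adj x y)).filter (fun y => ¬ c y = c x) =
        (univ.filter (fun y => G.Adj x y)).filter (fun y => ¬ c y = c x) := by
      ext y
      simp only [mem_filter, mem_univ, true_and]
      constructor
      · rintro ⟨h4, h5⟩
        exact ⟨(hout y h5).mp h4, h5⟩
      · rintro ⟨h4, h5⟩
        exact ⟨(hout y h5).mpr h4, h5⟩
    rw [h3] at h1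
    omega
  have hx : ∀ y, (H.Adj x y ↔ G.Adj x y) := by
    intro y
    by_cases hy : c y = c x
    · rcases htype with ht | ht
      · have hsub : (univ.filter (fun y => H.Adj x y)).filter (fun y => c y = c x) ⊆
            (univ.filter (fun y => G.Adj x y)).filter (fun y => c y = c x) := by
          intro z hz
          simp only [mem_filter, mem_univ, true_and] at hz ⊢
          exact ⟨ht z hz.2 (fun e => H.irrefl (e ▸ hz.1)), hz.2⟩
        have heq := eq_of_subset_of_card_le hsub (le_of_eq hin.symm)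
        have := congrArg (fun T => y ∈ T) heq
        simp only [mem_filter, mem_univ, true_and, hy, and_true, eq_iff_iff] at this
        exact this
      · have h0 : (univ.filter (fun y => G.Adj x y)).filter (fun y => c y = c x) = ∅ := by
          rw [filter_eq_empty_iff]
          intro z hz hzc
          exact ht z hzc (mem_filter.mp hz).2
        rw [h0, card_empty, card_eq_zero, filter_eq_empty_iff] at hin
        exact ⟨fun h => absurd hy (hin (mem_filter.mpr ⟨mem_univ _, h⟩)),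
          fun h => absurd h (ht y hy)⟩
    · exact hout y hy
  intro hN
  apply hN
  refine ⟨Equiv.refl V, fun a b => ?_⟩
  show H.Adj a b ↔ G.Adj a b
  by_cases ha : a = x
  · rw [ha]
    exact hx b
  · by_cases hb : b = x
    · rw [hb, H.adj_comm, G.adj_comm]
      exact hx a
    · exact hA a b ha hb

/-- regular graphs: rigidity -/
theorem rig_reg (r : ℕ) (hr : ∀ i, dg Q i = r) (j : K) (Q2 : SimpleGraph K) (hA : Ag Q Q2 j)
    (hφ : ∃ φ : Equiv.Perm K, ∀ i j, (Q2.Adj (φ i) (φ j) ↔ Q.Adj i j)) (i : K) :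
    (Q2.Adj j i ↔ Q.Adj j i) := by
  obtain ⟨φ, hφ⟩ := hφ
  have h2 : ∀ i, dg Q2 i = r := by
    intro i
    have := dg_iso φ hφ (φ.symm i)
    rw [Equiv.apply_symm_apply, hr] at this
    exact this
  by_cases hij : i = j
  · rw [hij]
    exact ⟨fun h => absurd h Q2.irrefl, fun h => absurd h Q.irrefl⟩
  · have h3 := dg_split Q2 j i
    have h4 := dg_split Q j i
    have h5 : dge Q2 j i = dge Q j i := dge_congr j i (fun l hl => hA i l hij hl)
    rw [h2, h5] at h3
    rw [hr] at h4
    rw [Q2.adj_comm, Q.adj_comm]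
    by_cases h6 : Q2.Adj i j
    · by_cases h7 : Q.Adj i j
      · exact ⟨fun _ => h7, fun _ => h6⟩
      · rw [if_pos h6] at h3
        rw [if_neg h7] at h4
        omega
    · by_cases h7 : Q.Adj i j
      · rw [if_neg h6] at h3
        rw [if_pos h7] at h4
        omega
      · exact ⟨fun h => absurd h h6, fun h => absurd h h7⟩

/-- regular graphs without twins: the condition on modules -/
theorem cc_reg (r : ℕ) (hr : ∀ i, dg Q i = r)
    (hno : ∀ i j, i ≠ j → ∃ z, z ≠ i ∧ z ≠ j ∧ ¬ (Q.Adj z i ↔ Q.Adj z j))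
    (htype : ∀ k, (∀ x y, c x = k → c y = k → x ≠ y → G.Adj x y) ∨
      (∀ x y, c x = k → c y = k → ¬ G.Adj x y)) : CC G Q c := by
  rintro v N hv hN hmod ⟨f, hf, hfc, hfa⟩
  obtain ⟨a, ha, b, hb, hab⟩ := one_lt_card.mp (by omega : 1 < N.card)
  have hav : a ≠ v := fun e => hv (e ▸ ha)
  have hbv : b ≠ v := fun e => hv (e ▸ hb)
  have hz : ∀ z, z ≠ v → z ≠ a → z ≠ b → (Q.Adj z a ↔ Q.Adj z b) := by
    intro z hzv hza hzb
    by_cases hzN : z ∈ N
    · rcases htype (c (f a)) with ht | ht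
      · have h1 := ht (f z) (f a) (hfc z hzN a ha) rfl (fun e => hza (hf z hzN a ha e))
        have h2 := ht (f z) (f b) (hfc z hzN a ha) (hfc b hb a ha)
          (fun e => hzb (hf z hzN b hb e))
        rw [hfa z hzN a ha] at h1
        rw [hfa z hzN b hb] at h2
        exact ⟨fun _ => h2, fun _ => h1⟩
      · have h1 := ht (f z) (f a) (hfc z hzN a ha) rfl
        have h2 := ht (f z) (f b) (hfc z hzN a ha) (hfc b hb a ha)
        rw [hfa z hzN a ha] at h1
        rw [hfa z hzN b hb] at h2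
        exact ⟨fun h => absurd h h1, fun h => absurd h h2⟩
    · exact hmod z hzv hzN a ha b hb
  have h1 := dg_split Q v a
  have h2 := dg_split Q v b
  have h3 : dge Q v a = dge Q v b := by
    unfold dge
    apply card_equiv (Equiv.swap a b)
    intro z
    rw [mem_filter, mem_filter, mem_erase, mem_erase]
    by_cases hza : z = a
    · rw [hza, Equiv.swap_apply_left]
      exact ⟨fun h => absurd h.2 Q.irrefl, fun h => absurd h.2 Q.irrefl⟩
    · by_cases hzb : z = b
      · rw [hzb, Equiv.swap_apply_right, Q.adj_comm a b]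
        exact ⟨fun h => ⟨⟨hav, mem_univ _⟩, h.2⟩, fun h => ⟨⟨hbv, mem_univ _⟩, h.2⟩⟩
      · rw [Equiv.swap_apply_of_ne_of_ne hza hzb, Q.adj_comm a z, Q.adj_comm b z]
        constructor
        · rintro ⟨⟨h4, h5⟩, h6⟩
          exact ⟨⟨h4, h5⟩, (hz z h4 hza hzb).mp h6⟩
        · rintro ⟨⟨h4, h5⟩, h6⟩
          exact ⟨⟨h4, h5⟩, (hz z h4 hza hzb).mpr h6⟩
  rw [hr] at h1 h2
  obtain ⟨z, hz1, hz2, hz3⟩ := hno a b hab
  by_cases hzv : z = v
  · rw [hzv, Q.adj_comm v a, Q.adj_comm v b] at hz3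
    apply hz3
    by_cases h4 : Q.Adj a v
    · by_cases h5 : Q.Adj b v
      · exact ⟨fun _ => h5, fun _ => h4⟩
      · rw [if_pos h4] at h1
        rw [if_neg h5] at h2
        omega
    · by_cases h5 : Q.Adj b v
      · rw [if_neg h4] at h1
        rw [if_pos h5] at h2
        omega
      · exact ⟨fun h => absurd h h4, fun h => absurd h h5⟩
  · exact hz3 (hz z hzv hz1 hz2)

theorem fin_one (h3 : 3 ≤ Fintype.card K) (hlt : Fintype.card K < Fintype.card V)
    (hS : St G univ c Q) (hC : CC G Q c) (x : V) (hx : ∀ y, c y = c x → y = x)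
    (hU : ∀ Q2 : SimpleGraph K, Ag Q Q2 (c x) →
      (∃ φ : Equiv.Perm K, ∀ i j, (Q2.Adj (φ i) (φ j) ↔ Q.Adj i j)) →
      ∃ ψ : Equiv.Perm K, (∀ i j, (Q2.Adj (ψ i) (ψ j) ↔ Q.Adj i j)) ∧
        ∀ k, ty (fb c k) G = ty (fb c (ψ k)) G) : Reconstructible G ∧ Reconstructible Gᶜ := by
  refine Pool.Agent.TH87.RVE.rec_of G True (fun H π hH hN => ?_) trivial
  exact absurd hN (nonIso_comap (π x) (case_one hS hC h3 x (ag_comap hH x)
    (through_eq hH hlt x) hx hU))

theorem fin_two (h3 : 3 ≤ Fintype.card K) (hlt : Fintype.card K < Fintype.card V)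
    (hS : St G univ c Q) (hC : CC G Q c) (k : K)
    (hmin : ∀ j, (fb c k).card ≤ (fb c j).card)
    (hno : ∀ i j, i ≠ j → ∃ z, z ≠ i ∧ z ≠ j ∧ ¬ (Q.Adj z i ↔ Q.Adj z j))
    (hrig : ∀ (j : K) (Q2 : SimpleGraph K), Ag Q Q2 j →
      (∃ φ : Equiv.Perm K, ∀ i j, (Q2.Adj (φ i) (φ j) ↔ Q.Adj i j)) →
      ∀ i, (Q2.Adj j i ↔ Q.Adj j i))
    (htype : (∀ x y, c x = k → c y = k → x ≠ y → G.Adj x y) ∨
      (∀ x y, c x = k → c y = k → ¬ G.Adj x y)) : Reconstructible G ∧ Reconstructible Gᶜ := by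
  obtain ⟨x, _, hx⟩ := hS.sur k
  refine Pool.Agent.TH87.RVE.rec_of G True (fun H π hH hN => ?_) trivial
  refine absurd hN (nonIso_comap (π x) (case_two hS hC (ag_comap hH x)
    (through_eq hH hlt x) (by rw [hx]; exact hmin) hno hrig (deg_eq hH (by omega) x) ?_))
  rcases htype with h | h
  · left
    intro y hy hyx
    exact h x y hx (by rw [hy, hx]) (fun e => hyx e.symm)
  · right
    intro y hy
    exact h x y hx (by rw [hy, hx])

theorem fin_three (h3 : 3 ≤ Fintype.card K) (hlt : Fintype.card K < Fintype.card V)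
    (hS : St G univ c Q) (r : ℕ) (hr : ∀ i, dg Q i = r)
    (hno : ∀ i j, i ≠ j → ∃ z, z ≠ i ∧ z ≠ j ∧ ¬ (Q.Adj z i ↔ Q.Adj z j))
    (htype : ∀ k, (∀ x y, c x = k → c y = k → x ≠ y → G.Adj x y) ∨
      (∀ x y, c x = k → c y = k → ¬ G.Adj x y)) : Reconstructible G ∧ Reconstructible Gᶜ := by
  obtain ⟨k, _, hk⟩ := exists_min_image (univ : Finset K) (fun k => (fb c k).card)
    (card_pos.mp (by rw [card_univ]; omega))
  exact fin_two h3 hlt hS (cc_reg r hr hno htype) k (fun j => hk j (mem_univ _)) hno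
    (fun j Q2 hA hφ => rig_reg r hr j Q2 hA hφ) (htype k)

end Pool.Agent.Run7.h766.BU
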