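import Pool.Agent.Run7.h766.BU.Deg
import Pool.Agent.Run7.h766.MD.Recog

set_option autoImplicit false
set_option linter.unusedSectionVars false

/-!
# Prime quotients
-/

namespace Pool.Agent.Run7.h766.BU

open Finset Classical
open Pool.Agent.H234RC (Hypo NonIso Reconstructible)
open Pool.Agent.Run7.h766.MD

variable {V K : Type} [Fintype V] [Fintype K]
variable {G H : SimpleGraph V} {c c' : V → K} {Q : SimpleGraph K} {π : V → Equiv.Perm V}

theorem end_one (hS : St G univ c Q) {x : V} (hA : Ag G H x)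
    (hx : ∀ y, c y = c x → y = x)
    (hsame : ∀ y y', c y = c y' → c y ≠ c x → (H.Adj x y ↔ H.Adj x y'))
    (s : K → V) (hs : ∀ k, c (s k) = k) (hsx : s (c x) = x)
    (hφ : ∃ φ : Equiv.Perm K, ∀ i j, ((H.comap s).Adj (φ i) (φ j) ↔ Q.Adj i j))
    (hU : ∀ Q2 : SimpleGraph K, Ag Q Q2 (c x) →
      (∃ φ : Equiv.Perm K, ∀ i j, (Q2.Adj (φ i) (φ j) ↔ Q.Adj i j)) →
      ∃ ψ : Equiv.Perm K, (∀ i j, (Q2.Adj (ψ i) (ψ j) ↔ Q.Adj i j)) ∧
        ∀ k, ty (fb c k) G = ty (fb c (ψ k)) G) : ¬ NonIso G H := by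
  have hne : ∀ i, i ≠ c x → s i ≠ x := fun i hi e => hi (by rw [← hs i, e])
  have hQ2 : Ag Q (H.comap s) (c x) := by
    intro i j hi hj
    rw [SimpleGraph.comap_adj, hA _ _ (hne i hi) (hne j hj)]
    by_cases hij : i = j
    · subst hij
      exact ⟨fun h => absurd h G.irrefl, fun h => absurd h Q.irrefl⟩
    · rw [hS.adj _ (mem_univ _) _ (mem_univ _) (by rw [hs, hs]; exact hij), hs, hs]
  obtain ⟨ψ, hψ, hty⟩ := hU _ hQ2 hφ
  have hst : ∀ a b, c a ≠ c b → (H.Adj a b ↔ (H.comap s).Adj (c a) (c b)) := by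
    intro a b hab
    rw [SimpleGraph.comap_adj]
    by_cases hax : a = x
    · rw [hax, hsx]
      apply hsame
      · rw [hs]
      · intro e
        exact hab (by rw [hax, e])
    · by_cases hbx : b = x
      · rw [hbx, hsx, H.adj_comm, H.adj_comm (s (c a))]
        apply hsame
        · rw [hs]
        · intro e
          exact hab (by rw [hbx, e])
      · have ha : c a ≠ c x := fun e => hax (hx a e)
        have hb : c b ≠ c x := fun e => hbx (hx b e)
        rw [hA _ _ hax hbx, hA _ _ (hne _ ha) (hne _ hb),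
          hS.adj _ (mem_univ _) _ (mem_univ _) hab,
          hS.adj _ (mem_univ _) _ (mem_univ _) (by rw [hs, hs]; exact hab), hs, hs]
  have hS' : St H univ (fun v => ψ.symm (c v)) Q := by
    constructor
    · intro a _ b _ hab
      have hab' : c a ≠ c b := fun e => hab (by show ψ.symm (c a) = ψ.symm (c b); rw [e])
      rw [hst a b hab', ← hψ, Equiv.apply_symm_apply, Equiv.apply_symm_apply]
    · intro k
      obtain ⟨z, _, hz⟩ := hS.sur (ψ k)
      exact ⟨z, mem_univ _, by rw [hz, Equiv.symm_apply_apply]⟩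
  apply iso_of hS hS' (Equiv.refl K) (fun i j => Iff.rfl)
  intro k
  rw [hty k, ty_eq]
  refine ⟨Equiv.refl V, fun z => ?_, fun a ha b hb => ?_⟩
  · show z ∈ fb _ k ↔ z ∈ fb c (ψ k)
    rw [mem_fb, mem_fb]
    exact Equiv.symm_apply_eq ψ
  · show H.Adj a b ↔ G.Adj a b
    have ha' : c a = ψ k := (mem_fb _ _).mp ha
    have hb' : c b = ψ k := (mem_fb _ _).mp hb
    by_cases hax : a = x
    · have : b = a := by
        rw [hax]
        apply hx
        rw [hb', ← ha', hax]
      rw [this]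
      exact ⟨fun h => absurd h H.irrefl, fun h => absurd h G.irrefl⟩
    · by_cases hbx : b = x
      · have : a = b := by
          rw [hbx]
          apply hx
          rw [ha', ← hb', hbx]
        exact absurd (this.trans hbx) hax
      · exact hA a b hax hbx

theorem case_prime (hQ : Pr Q) (hS : St G univ c Q) {x : V} (hA : Ag G H x)
    (hx : ∀ y, c y = c x → y = x)
    (hQ1 : Pr (Q.comap (Subtype.val : {k : K // k ≠ c x} → K)))
    (hS' : St H univ c' Q)
    (hU : ∀ Q2 : SimpleGraph K, Ag Q Q2 (c x) →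
      (∃ φ : Equiv.Perm K, ∀ i j, (Q2.Adj (φ i) (φ j) ↔ Q.Adj i j)) →
      ∃ ψ : Equiv.Perm K, (∀ i j, (Q2.Adj (ψ i) (ψ j) ↔ Q.Adj i j)) ∧
        ∀ k, ty (fb c k) G = ty (fb c (ψ k)) G) : ¬ NonIso G H := by
  have h3 := hQ.1
  obtain ⟨i0, _, hi0, _, _⟩ := exists_two h3 (c x)
  obtain ⟨y0, _, hy0⟩ := hS.sur i0
  obtain ⟨s, hs, hsx, _⟩ := exists_sec0 hS x y0 (by rw [hy0]; exact hi0)
  -- the colouring of the other vertices
  let c1 : V → {k : K // k ≠ c x} := fun v => if h : c v ≠ c x then ⟨c v, h⟩ else ⟨i0, hi0⟩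
  have hc1 : ∀ v, v ≠ x → (c1 v).1 = c v := by
    intro v hv
    have : c v ≠ c x := fun e => hv (hx v e)
    simp only [c1, dif_pos this]
  have hS1 : St H (univ.erase x) c1 (Q.comap (Subtype.val : {k : K // k ≠ c x} → K)) := by
    constructor
    · intro a ha b hb hab
      have ha' := (mem_erase.mp ha).1
      have hb' := (mem_erase.mp hb).1
      rw [SimpleGraph.comap_adj, hc1 a ha', hc1 b hb', hA a b ha' hb']
      apply hS.adj a (mem_univ _) b (mem_univ _)
      intro e
      apply hab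
      apply Subtype.ext
      rw [hc1 a ha', hc1 b hb', e]
    · intro k
      obtain ⟨y, _, hy⟩ := hS.sur k.1
      have hyx : y ≠ x := fun e => k.2 (by rw [← hy, e])
      exact ⟨y, mem_erase.mpr ⟨hyx, mem_univ _⟩, Subtype.ext (by rw [hc1 y hyx, hy])⟩
  -- `x` is alone in its class
  have hx' : ∀ y, c' y = c' x → y = x := by
    intro y hy
    by_contra hyx
    have hS2 : St H (univ.erase x) c' Q := by
      refine hS'.restrict _ (erase_subset _ _) (fun k => ?_)
      obtain ⟨z, _, hz⟩ := hS'.sur k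
      by_cases hzx : z = x
      · exact ⟨y, mem_erase.mpr ⟨hyx, mem_univ _⟩, by rw [hy, ← hzx, hz]⟩
      · exact ⟨z, mem_erase.mpr ⟨hzx, mem_univ _⟩, hz⟩
    obtain ⟨α, _, _⟩ := uniq hQ hS2 hQ1 hS1
    have h5 := Fintype.card_congr α
    have h6 : Fintype.card {k : K // k ≠ c x} < Fintype.card K :=
      Fintype.card_subtype_lt (x := c x) (by simp)
    omega
  -- the classes
  have hstep : ∀ y y', y ≠ x → y' ≠ x → c' y = c' y' → c y = c y' := by
    intro y y' hy hy' hyy
    have hM : Md H (univ.erase x) ((univ.erase x).filter (fun z => c' z = c' y)) := by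
      refine ⟨filter_subset _ _, ?_⟩
      intro z _ hz a ha b hb
      have ha' := (mem_filter.mp ha).2
      have hb' := (mem_filter.mp hb).2
      rename_i hzU
      have hz' : c' z ≠ c' y := fun e => hz (mem_filter.mpr ⟨hzU, e⟩)
      rw [hS'.adj z (mem_univ _) a (mem_univ _) (by rw [ha']; exact hz'),
        hS'.adj z (mem_univ _) b (mem_univ _) (by rw [hb']; exact hz'), ha', hb']
    rcases f1 hQ1 hS1 hM with h | h
    · have := h y (mem_filter.mpr ⟨mem_erase.mpr ⟨hy, mem_univ _⟩, rfl⟩) y'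
        (mem_filter.mpr ⟨mem_erase.mpr ⟨hy', mem_univ _⟩, hyy.symm⟩)
      rw [← hc1 y hy, ← hc1 y' hy', this]
    · exfalso
      obtain ⟨i, j, hi, hj, hij⟩ := exists_two h3 (c' x)
      obtain ⟨a, _, ha⟩ := hS'.sur i
      obtain ⟨b, _, hb⟩ := hS'.sur j
      have ha2 : a ∈ univ.erase x := mem_erase.mpr ⟨fun e => hi (by rw [← ha, e]), mem_univ _⟩
      have hb2 : b ∈ univ.erase x := mem_erase.mpr ⟨fun e => hj (by rw [← hb, e]), mem_univ _⟩
      rw [← h] at ha2 hb2
      apply hij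
      rw [← ha, ← hb, (mem_filter.mp ha2).2, (mem_filter.mp hb2).2]
  have hex : ∀ k : {k : K // k ≠ c' x}, ∃ z, z ≠ x ∧ c' z = k.1 := by
    intro k
    obtain ⟨z, _, hz⟩ := hS'.sur k.1
    exact ⟨z, fun e => k.2 (by rw [← hz, e]), hz⟩
  choose s' hs1' hs2' using hex
  let g : {k : K // k ≠ c' x} → {k : K // k ≠ c x} := fun k => c1 (s' k)
  have hgs : Function.Surjective g := by
    intro k1
    obtain ⟨z, hz, hzk⟩ := hS1.sur k1
    have hzx := (mem_erase.mp hz).1
    have hz' : c' z ≠ c' x := fun e => hzx (hx' z e)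
    refine ⟨⟨c' z, hz'⟩, ?_⟩
    show c1 (s' ⟨c' z, hz'⟩) = k1
    rw [← hzk]
    apply Subtype.ext
    rw [hc1 _ (hs1' _), hc1 z hzx]
    exact hstep _ _ (hs1' _) hzx (hs2' _)
  have hgi : Function.Injective g := by
    have hcc : Fintype.card {k : K // k ≠ c' x} = Fintype.card {k : K // k ≠ c x} := by
      have e1 : ∀ a : K, Fintype.card {k : K // k ≠ a} = Fintype.card K - 1 := by
        intro a
        rw [Fintype.card_subtype, filter_ne', card_erase_of_mem (mem_univ _), card_univ]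
      rw [e1, e1]
    exact (Function.Surjective.bijective_of_nat_card_le hgs (by
      rw [Nat.card_eq_fintype_card, Nat.card_eq_fintype_card, hcc])).1
  have hstep2 : ∀ y y', y ≠ x → y' ≠ x → c y = c y' → c' y = c' y' := by
    intro y y' hy hy' hyy
    have h1 : c' y ≠ c' x := fun e => hy (hx' y e)
    have h2 : c' y' ≠ c' x := fun e => hy' (hx' y' e)
    have h5 : g ⟨c' y, h1⟩ = g ⟨c' y', h2⟩ := by
      apply Subtype.ext
      show (c1 (s' ⟨c' y, h1⟩)).1 = (c1 (s' ⟨c' y', h2⟩)).1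
      rw [hc1 _ (hs1' _), hc1 _ (hs1' _), hstep _ y (hs1' _) hy (hs2' _),
        hstep _ y' (hs1' _) hy' (hs2' _), hyy]
    exact congrArg Subtype.val (hgi h5)
  apply end_one hS hA hx (c := c) _ s hs hsx _ hU
  · intro y y' hyy hy
    have hyx : y ≠ x := fun e => hy (by rw [e])
    have hyx' : y' ≠ x := fun e => hy (by rw [hyy, e])
    have h1 := hstep2 y y' hyx hyx' hyy
    have h2 : c' x ≠ c' y := fun e => hyx (hx' y e.symm)
    rw [hS'.adj x (mem_univ _) y (mem_univ _) h2,
      hS'.adj x (mem_univ _) y' (mem_univ _) (by rw [← h1]; exact h2), h1]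
  · have hinj : Function.Injective (fun k => c' (s k)) := by
      intro i j hij
      have hij' : c' (s i) = c' (s j) := hij
      by_cases hi : s i = x
      · rw [hi] at hij'
        have := hx' _ hij'.symm
        rw [← hs i, ← hs j, hi, this]
      · by_cases hj : s j = x
        · rw [hj] at hij'
          exact absurd (hx' _ hij') hi
        · have := hstep _ _ hi hj hij'
          rwa [hs, hs] at this
    let ρ : Equiv.Perm K := Equiv.ofBijective _ (Finite.injective_iff_bijective.mp hinj)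
    have hρ : ∀ k, ρ k = c' (s k) := fun k => rfl
    refine ⟨ρ.symm, fun i j => ?_⟩
    rw [SimpleGraph.comap_adj]
    by_cases hij : i = j
    · subst hij
      exact ⟨fun h => absurd h H.irrefl, fun h => absurd h Q.irrefl⟩
    · have e1 : ∀ k, c' (s (ρ.symm k)) = k := fun k => by
        rw [← hρ, Equiv.apply_symm_apply]
      rw [hS'.adj _ (mem_univ _) _ (mem_univ _) (by rw [e1, e1]; exact hij), e1, e1]

theorem fin_prime (hn : Fintype.card K + 3 ≤ Fintype.card V) (hQ : Pr Q)
    (hS : St G univ c Q) (x : V) (hx : ∀ y, c y = c x → y = x)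
    (hQ1 : Pr (Q.comap (Subtype.val : {k : K // k ≠ c x} → K)))
    (hU : ∀ Q2 : SimpleGraph K, Ag Q Q2 (c x) →
      (∃ φ : Equiv.Perm K, ∀ i j, (Q2.Adj (φ i) (φ j) ↔ Q.Adj i j)) →
      ∃ ψ : Equiv.Perm K, (∀ i j, (Q2.Adj (ψ i) (ψ j) ↔ Q.Adj i j)) ∧
        ∀ k, ty (fb c k) G = ty (fb c (ψ k)) G) : Reconstructible G ∧ Reconstructible Gᶜ := by
  refine Pool.Agent.TH87.RVE.rec_of G True (fun H π hH hN => ?_) trivial
  obtain ⟨c', hS'⟩ := recog hQ hH hS hn
  have hS2 : St (H.comap (π x)) univ (fun v => c' (π x v)) Q := by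
    constructor
    · intro a _ b _ hab
      rw [SimpleGraph.comap_adj]
      exact hS'.adj _ (mem_univ _) _ (mem_univ _) hab
    · intro k
      obtain ⟨z, _, hz⟩ := hS'.sur k
      exact ⟨(π x).symm z, mem_univ _, by rw [Equiv.apply_symm_apply, hz]⟩
  exact absurd hN (nonIso_comap (π x) (case_prime hQ hS (ag_comap hH x) hx hQ1 hS2 hU))

end Pool.Agent.Run7.h766.BU
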